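import Pool.Agent.SMG.Defs

/-! GRD: the greedy algorithm outputs a matching with at least `ν / 2` edges and needs
`O(n log n)` bits.

The states are the matchings; a matching is determined by the function which sends a vertex to its
partner, so there are at most `(n + 1) ^ n ≤ 2 ^ b` of them with `b = n * (Nat.log 2 (n + 1) + 1)`.
-/

namespace SMG

/-- The matchings as states. -/
abbrev GSt (n : ℕ) : Type := {M : Finset (Sym2 (Fin n)) // IsMatch M}

open Classical in
/-- The partner of a vertex. -/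
noncomputable def gpart {n : ℕ} (M : GSt n) (v : Fin n) : Option (Fin n) :=
  if h : ∃ w, s(v, w) ∈ M.1 then some h.choose else none

theorem gpart_sub {n : ℕ} {M M' : GSt n} (h : gpart M = gpart M') : M.1 ⊆ M'.1 := by
  intro e he
  induction e using Sym2.ind with
  | _ v w =>
    have hv : ∃ w, s(v, w) ∈ M.1 := ⟨w, he⟩
    have h1 : gpart M v = some hv.choose := by
      unfold gpart
      rw [dif_pos hv]
    have h2 : s(v, hv.choose) = s(v, w) :=
      M.2 _ hv.choose_spec _ he v (Sym2.mem_mk_left _ _) (Sym2.mem_mk_left _ _)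
    rw [h] at h1
    by_cases hv' : ∃ w, s(v, w) ∈ M'.1
    · unfold gpart at h1
      rw [dif_pos hv'] at h1
      have h3 : hv'.choose = hv.choose := Option.some.inj h1
      have h4 := hv'.choose_spec
      rw [h3, h2] at h4
      exact h4
    · unfold gpart at h1
      rw [dif_neg hv'] at h1
      exact absurd h1 (by simp)

theorem gpart_inj {n : ℕ} : Function.Injective (gpart (n := n)) := by
  intro M M' h
  exact Subtype.ext (Finset.Subset.antisymm (gpart_sub h) (gpart_sub h.symm))

theorem gst_card (n : ℕ) : Nat.card (GSt n) ≤ 2 ^ (n * (Nat.log 2 (n + 1) + 1)) := by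
  have h1 : Nat.card (GSt n) ≤ Nat.card (Fin n → Option (Fin n)) :=
    Nat.card_le_card_of_injective _ gpart_inj
  have h2 : Nat.card (Fin n → Option (Fin n)) = (n + 1) ^ n := by
    rw [Nat.card_eq_fintype_card]
    simp
  have h3 : (n + 1) ^ n ≤ (2 ^ (Nat.log 2 (n + 1) + 1)) ^ n :=
    Nat.pow_le_pow_left (Nat.lt_pow_succ_log_self (by norm_num) (n + 1)).le n
  rw [← pow_mul, mul_comm] at h3
  exact (h1.trans h2.le).trans h3

theorem gmatch_insert {n : ℕ} (M : GSt n) (x : Sym2 (Fin n))
    (h : ∀ f ∈ M.1, ∀ v, v ∈ x → v ∉ f) : IsMatch (insert x M.1) := by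
  intro e he f hf v hve hvf
  rcases Finset.mem_insert.1 he with h1 | h1
  · rcases Finset.mem_insert.1 hf with h2 | h2
    · exact h1.trans h2.symm
    · exact absurd hvf (h f h2 v (h1 ▸ hve))
  · rcases Finset.mem_insert.1 hf with h2 | h2
    · exact absurd hve (h e h1 v (h2 ▸ hvf))
    · exact M.2 e h1 f h2 v hve hvf

open Classical in
/-- The greedy step. -/
noncomputable def gstep {n : ℕ} (M : GSt n) (x : Sym2 (Fin n)) : GSt n :=
  if h : ∀ f ∈ M.1, ∀ v, v ∈ x → v ∉ f then ⟨insert x M.1, gmatch_insert M x h⟩ else M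

theorem gstep_sub {n : ℕ} (M : GSt n) (x : Sym2 (Fin n)) : M.1 ⊆ (gstep M x).1 := by
  unfold gstep
  split_ifs with h
  · exact Finset.subset_insert _ _
  · exact Finset.Subset.refl _

theorem gstep_mem {n : ℕ} (M : GSt n) (x : Sym2 (Fin n)) :
    ∀ e ∈ (gstep M x).1, e = x ∨ e ∈ M.1 := by
  intro e he
  unfold gstep at he
  split_ifs at he with h
  · exact Finset.mem_insert.1 he
  · exact Or.inr he

theorem gstep_hit {n : ℕ} (M : GSt n) (x : Sym2 (Fin n)) :
    ∃ f ∈ (gstep M x).1, ∃ v, v ∈ x ∧ v ∈ f := by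
  unfold gstep
  split_ifs with h
  · induction x using Sym2.ind with
    | _ v w =>
      exact ⟨s(v, w), Finset.mem_insert_self _ _, v, Sym2.mem_mk_left _ _, Sym2.mem_mk_left _ _⟩
  · push Not at h
    obtain ⟨f, hf, v, hv, hvf⟩ := h
    exact ⟨f, hf, v, hv, hvf⟩

/-- The greedy matching. -/
noncomputable def grun {n : ℕ} (M : GSt n) (l : List (Sym2 (Fin n))) : GSt n := l.foldl gstep M

theorem grun_sub {n : ℕ} (l : List (Sym2 (Fin n))) : ∀ M : GSt n, M.1 ⊆ (grun M l).1 := by
  induction l with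
  | nil => intro M; exact Finset.Subset.refl _
  | cons x l ih => intro M; exact (gstep_sub M x).trans (ih (gstep M x))

theorem grun_mem {n : ℕ} (l : List (Sym2 (Fin n))) :
    ∀ M : GSt n, ∀ e ∈ (grun M l).1, e ∈ l ∨ e ∈ M.1 := by
  induction l with
  | nil => intro M e he; exact Or.inr he
  | cons x l ih =>
    intro M e he
    rcases ih (gstep M x) e he with h | h
    · exact Or.inl (List.mem_cons_of_mem _ h)
    · rcases gstep_mem M x e h with h | h
      · exact Or.inl (h ▸ List.mem_cons_self)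
      · exact Or.inr h

theorem grun_hit {n : ℕ} (l : List (Sym2 (Fin n))) :
    ∀ M : GSt n, ∀ x ∈ l, ∃ f ∈ (grun M l).1, ∃ v, v ∈ x ∧ v ∈ f := by
  induction l with
  | nil => intro M x hx; exact absurd hx (by simp)
  | cons y l ih =>
    intro M x hx
    rcases List.mem_cons.1 hx with rfl | hx
    · obtain ⟨f, hf, v, hv, hvf⟩ := gstep_hit M x
      exact ⟨f, grun_sub l (gstep M x) hf, v, hv, hvf⟩
    · exact ih (gstep M y) x hx

open Classical in
theorem nu_le_two_mul {n : ℕ} (M : GSt n) (σ : List (Sym2 (Fin n)))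
    (h : ∀ x ∈ σ, ∃ f ∈ M.1, ∃ v, v ∈ x ∧ v ∈ f) : nu σ ≤ 2 * M.1.card := by
  refine csSup_le' ?_
  rintro k ⟨M', hM', hm, rfl⟩
  let W : Finset (Fin n) := M.1.biUnion (fun f => Finset.univ.filter (fun v => v ∈ f))
  have hW : W.card ≤ 2 * M.1.card := by
    refine (Finset.card_biUnion_le).trans ?_
    rw [mul_comm]
    refine Finset.sum_le_card_nsmul _ _ _ ?_
    intro f _
    induction f using Sym2.ind with
    | _ a b =>
      refine (Finset.card_le_card (t := {a, b}) ?_).trans Finset.card_le_two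
      intro v hv
      have := (Finset.mem_filter.1 hv).2
      rw [Sym2.mem_iff] at this
      simpa using this
  refine le_trans ?_ hW
  have hc : ∀ e ∈ M', ∃ v, v ∈ e ∧ v ∈ W := by
    intro e he
    obtain ⟨f, hf, v, hv, hvf⟩ := h e (hM' e he)
    exact ⟨v, hv, Finset.mem_biUnion.2 ⟨f, hf, Finset.mem_filter.2 ⟨Finset.mem_univ _, hvf⟩⟩⟩
  choose g hg hgW using hc
  rw [← Finset.card_attach (s := M')]
  refine Finset.card_le_card_of_injOn (fun e : {x // x ∈ M'} => g e.1 e.2)
    (fun e _ => hgW e.1 e.2) ?_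
  intro e _ f _ hef
  have h3 : g e.1 e.2 = g f.1 f.2 := hef
  exact Subtype.ext (hm e.1 e.2 f.1 f.2 (g e.1 e.2) (hg e.1 e.2) (h3 ▸ hg f.1 f.2))

theorem greedy (n : ℕ) : ∃ A : SAlg (Fin n) (n * (Nat.log 2 (n + 1) + 1)),
    ∀ σ : List (Sym2 (Fin n)), IsStream σ → Success (1 / 2) A σ := by
  classical
  have : Nonempty (GSt n) := ⟨⟨∅, fun e he => absurd he (Finset.notMem_empty e)⟩⟩
  have hcard : Fintype.card (GSt n) ≤ Fintype.card (Fin (2 ^ (n * (Nat.log 2 (n + 1) + 1)))) := by
    rw [← Nat.card_eq_fintype_card, Fintype.card_fin]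
    exact gst_card n
  obtain ⟨enc⟩ := Function.Embedding.nonempty_of_card_le hcard
  let dec : Fin (2 ^ (n * (Nat.log 2 (n + 1) + 1))) → GSt n := Function.invFun enc
  have hdec : ∀ M, dec (enc M) = M := Function.leftInverse_invFun enc.injective
  let M0 : GSt n := ⟨∅, fun e he => absurd he (Finset.notMem_empty e)⟩
  let A : SAlg (Fin n) (n * (Nat.log 2 (n + 1) + 1)) :=
    { init := enc M0
      step := fun _ m x => enc (gstep (dec m) x)
      out := fun _ m => (dec m).1 }
  have hrun : ∀ (l : List (Sym2 (Fin n))) (t : ℕ) (M : GSt n),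
      A.runFrom t (enc M) l = enc (grun M l) := by
    intro l
    induction l with
    | nil => intro t M; rfl
    | cons x l ih =>
      intro t M
      have h1 : A.runFrom t (enc M) (x :: l) = A.runFrom (t + 1) (enc (gstep (dec (enc M)) x)) l :=
        rfl
      rw [h1, hdec, ih]
      rfl
  refine ⟨A, fun σ _ => ?_⟩
  have hout : A.output σ = (grun M0 σ).1 := by
    have h1 : A.output σ = (dec (A.runFrom 0 (enc M0) σ)).1 := rfl
    rw [h1, hrun, hdec]
  unfold Success
  rw [hout]
  refine ⟨fun e he => ?_, (grun M0 σ).2, ?_⟩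
  · rcases grun_mem σ M0 e he with h | h
    · exact h
    · exact absurd h (Finset.notMem_empty e)
  · have h1 := nu_le_two_mul (grun M0 σ) σ (grun_hit σ M0)
    have h2 : (nu σ : ℝ) ≤ 2 * ((grun M0 σ).1.card : ℝ) := by exact_mod_cast h1
    linarith

end SMG
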