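import Pool.Agent.STG.MAR

/-! BWD: the backward count.

`bw_bound`: downward induction on `t` (induction on `H - t`).
`t = H`: for each `p ∈ E` there are `2 q - j` thresholds `d` with `j + d < 2 q` (if `j < l`; if
`j = l` the left side is `0`), and `l (2 q - j) ≥ 2 q (l - j)` since `l ≤ 2 q`.
`j = l`: the left side is `0`.  `j = 0`: `E` is also invariant at time `t + 1`, with level `0`
there (`step_zero`), and `BW (t + 1) l E ⊆ BW t l E` if `0 < l`.
`0 < j < l`: split `E` by the bit `t` into `E₁`, `E₀`; both are invariant at time `t + 1`, with the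
levels `j + 1` and `j - 1` there (`step_mid`), `|E₁| = |E₀|` (flip the bit `t`), and the sets
`BW (t + 1) l E₁`, `BW (t + 1) l E₀` are disjoint subsets of `BW t l E`. -/

namespace STG

open Finset

/-- Invariance under changes of the bits from time `t` on. -/
def Inv {q H : ℕ} (t : ℕ) (E : Finset (Seed q H × (Fin H → Bool))) : Prop :=
  ∀ p ∈ E, ∀ x' : Fin H → Bool, (∀ i : Fin H, (i : ℕ) < t → x' i = p.2 i) → (p.1, x') ∈ E

open Classical in
/-- Continuations of the elements of `E` which stay below `l` and are open. -/
noncomputable def BW {q H : ℕ} (t l : ℕ) (E : Finset (Seed q H × (Fin H → Bool))) :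
    Finset (At q H) :=
  Finset.univ.filter (fun p => (p.1, p.2.1) ∈ E ∧
    (∀ t', t ≤ t' → t' ≤ H → lv p.1 p.2.1 t' < l) ∧ lv p.1 p.2.1 H + (p.2.2 : ℕ) < 2 * q)

/-- Half of an invariant set has the bit `t` equal to `b`. -/
theorem inv_half {q H : ℕ} (t : ℕ) (ht : t < H) (E : Finset (Seed q H × (Fin H → Bool)))
    (hE : Inv t E) (b : Bool) : 2 * (E.filter (fun p => bit p.2 t = b)).card = E.card := by
  classical
  have h1 : (E.filter (fun p => bit p.2 t = b)).card =
      (E.filter (fun p => ¬ bit p.2 t = b)).card := by
    refine Finset.card_bij (fun p _ => (p.1, setb t (!b) p.2)) ?_ ?_ ?_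
    · intro p hp
      rw [Finset.mem_filter] at hp ⊢
      refine ⟨hE p hp.1 _ (fun i hi => setb_lt t _ _ i hi), ?_⟩
      rw [bit_setb t ht]
      cases b <;> simp
    · intro p hp p' hp' h
      rw [Finset.mem_filter] at hp hp'
      simp only [Prod.mk.injEq] at h
      refine Prod.ext h.1 ?_
      have e1 := setb_setb t (!b) p.2
      have e2 := setb_setb t (!b) p'.2
      rw [hp.2, h.2] at e1
      rw [hp'.2] at e2
      rw [← e1, e2]
    · intro p hp
      rw [Finset.mem_filter] at hp
      have hb : bit p.2 t = !b := by
        have := hp.2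
        revert this
        cases bit p.2 t <;> cases b <;> simp
      refine ⟨(p.1, setb t b p.2), ?_, ?_⟩
      · rw [Finset.mem_filter]
        refine ⟨hE p hp.1 _ (fun i hi => setb_lt t _ _ i hi), ?_⟩
        rw [bit_setb t ht]
      · refine Prod.ext rfl ?_
        have e1 := setb_setb t b p.2
        rw [hb] at e1
        exact e1
  have h2 := Finset.card_filter_add_card_filter_not (s := E) (fun p => bit p.2 t = b)
  omega

private theorem bwd_inv_succ {q H : ℕ} {t : ℕ} {E : Finset (Seed q H × (Fin H → Bool))}
    (hE : Inv t E) : Inv (t + 1) E :=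
  fun p hp x' hx' => hE p hp x' (fun i hi => hx' i (by omega))

private theorem bwd_bit {H : ℕ} {x x' : Fin H → Bool} {t : ℕ}
    (h : ∀ i : Fin H, (i : ℕ) < t + 1 → x' i = x i) : bit x' t = bit x t := by
  unfold bit
  split_ifs with h1
  · exact h _ (Nat.lt_succ_self t)
  · rfl

private theorem bwd_inv_filter {q H : ℕ} {t : ℕ} {E : Finset (Seed q H × (Fin H → Bool))}
    (hE : Inv t E) (b : Bool) : Inv (t + 1) (E.filter (fun p => bit p.2 t = b)) := by
  intro p hp x' hx'
  rw [Finset.mem_filter] at hp ⊢
  refine ⟨hE p hp.1 x' (fun i hi => hx' i (by omega)), ?_⟩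
  show bit x' t = b
  rw [bwd_bit hx', hp.2]

private theorem bwd_fin_count (m j : ℕ) (hj : j ≤ m) :
    ((Finset.univ : Finset (Fin m)).filter (fun d : Fin m => j + (d : ℕ) < m)).card = m - j := by
  have h1 : ((Finset.univ : Finset (Fin m)).filter (fun d : Fin m => j + (d : ℕ) < m)).map
      Fin.valEmbedding = Finset.range (m - j) := by
    ext a
    simp only [Finset.mem_map, Finset.mem_filter, Finset.mem_univ, true_and, Finset.mem_range,
      Fin.valEmbedding_apply]
    constructor
    · rintro ⟨d, hd, rfl⟩
      omega
    · intro ha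
      exact ⟨⟨a, by omega⟩, by simp only; omega, rfl⟩
  rw [← Finset.card_map, h1, Finset.card_range]

theorem bw_bound {q H : ℕ} (l : ℕ) (hl : l ≤ 2 * q) (t : ℕ) (ht : t ≤ H) (j : ℕ) (hj : j ≤ l)
    (E : Finset (Seed q H × (Fin H → Bool))) (hE : Inv t E)
    (hE' : ∀ p ∈ E, birth p.1 ≤ t ∧ lv p.1 p.2 t = j) :
    2 * q * (l - j) * E.card ≤ l * (BW t l E).card := by
  classical
  obtain ⟨n, hn⟩ : ∃ n, H - t = n := ⟨_, rfl⟩
  induction n generalizing t j E with
  | zero =>
    have htH : t = H := by omega
    subst htH
    rcases Nat.lt_or_ge j l with hjl | hjl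
    · have h1 : E.card * (2 * q - j) ≤ (BW t l E).card := by
        have h2 : (E ×ˢ ((Finset.univ : Finset (Fin (2 * q))).filter
            (fun d : Fin (2 * q) => j + (d : ℕ) < 2 * q))).card = E.card * (2 * q - j) := by
          rw [Finset.card_product, bwd_fin_count _ _ (by omega)]
        rw [← h2]
        refine Finset.card_le_card_of_injOn (fun p => (p.1.1, p.1.2, p.2)) ?_ ?_
        · intro p hp
          have hp' := Finset.mem_product.1 (Finset.mem_coe.1 hp)
          have h3 := (Finset.mem_filter.1 hp'.2).2
          have h4 := hE' _ hp'.1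
          rw [Finset.mem_coe]
          unfold BW
          rw [Finset.mem_filter]
          refine ⟨Finset.mem_univ _, hp'.1, ?_, ?_⟩
          · intro t' h5 h6
            have h7 : t' = t := by omega
            show lv p.1.1 p.1.2 t' < l
            rw [h7, h4.2]
            exact hjl
          · show lv p.1.1 p.1.2 t + (p.2 : ℕ) < 2 * q
            rw [h4.2]
            exact h3
        · intro p _ p' _ h
          simp only [Prod.mk.injEq] at h
          exact Prod.ext (Prod.ext h.1 h.2.1) h.2.2
      have h2 : 2 * q * (l - j) ≤ l * (2 * q - j) := by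
        obtain ⟨a, rfl⟩ := Nat.exists_eq_add_of_le hjl.le
        obtain ⟨c, hc⟩ := Nat.exists_eq_add_of_le hl
        rw [hc]
        have e1 : j + a - j = a := by omega
        have e2 : j + a + c - j = a + c := by omega
        rw [e1, e2]
        nlinarith [Nat.zero_le (j * c)]
      calc 2 * q * (l - j) * E.card ≤ l * (2 * q - j) * E.card := Nat.mul_le_mul_right _ h2
        _ = l * (E.card * (2 * q - j)) := by ring
        _ ≤ l * (BW t l E).card := Nat.mul_le_mul_left _ h1
    · have h1 : l - j = 0 := by omega
      rw [h1]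
      simp
  | succ n ih =>
    have htH : t < H := by omega
    rcases Nat.lt_or_ge j l with hjl | hjl
    · have hsub : ∀ E' : Finset (Seed q H × (Fin H → Bool)), E' ⊆ E →
          BW (t + 1) l E' ⊆ BW t l E := by
        intro E' hE'' p hp
        unfold BW at hp ⊢
        rw [Finset.mem_filter] at hp ⊢
        refine ⟨hp.1, hE'' hp.2.1, ?_, hp.2.2.2⟩
        intro t' h1 h2
        rcases Nat.eq_or_lt_of_le h1 with h3 | h3
        · rw [← h3, (hE' _ (hE'' hp.2.1)).2]
          exact hjl
        · exact hp.2.2.1 t' h3 h2
      have hstep : ∀ p ∈ E, lv p.1 p.2 (t + 1) = step (2 * q) j (bit p.2 t) := by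
        intro p hp
        have h1 := hE' p hp
        have h2 := lev_succ (2 * q) (birth p.1) (ini p.1) p.2 t h1.1
        have h3 : lev (2 * q) (birth p.1) (ini p.1) p.2 t = j := h1.2
        show lev (2 * q) (birth p.1) (ini p.1) p.2 (t + 1) = _
        rw [h2, h3]
      rcases Nat.eq_zero_or_pos j with h0 | h0
      · subst h0
        have h1 := ih (t + 1) htH 0 (Nat.zero_le _) E (bwd_inv_succ hE) (by
          intro p hp
          refine ⟨(hE' p hp).1.trans (Nat.le_succ t), ?_⟩
          rw [hstep p hp, step_zero]) (by omega)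
        exact h1.trans (Nat.mul_le_mul_left _ (Finset.card_le_card (hsub E (Finset.Subset.refl _))))
      · set E1 := E.filter (fun p => bit p.2 t = true) with hE1
        set E0 := E.filter (fun p => bit p.2 t = false) with hE0
        have c1 : 2 * E1.card = E.card := inv_half t htH E hE true
        have c0 : 2 * E0.card = E.card := inv_half t htH E hE false
        have i1 := ih (t + 1) htH (j + 1) hjl E1 (bwd_inv_filter hE true) (by
          intro p hp
          rw [hE1, Finset.mem_filter] at hp
          refine ⟨(hE' p hp.1).1.trans (Nat.le_succ t), ?_⟩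
          rw [hstep p hp.1, step_mid _ _ _ h0 (by omega), hp.2]
          rfl) (by omega)
        have i0 := ih (t + 1) htH (j - 1) (by omega) E0 (bwd_inv_filter hE false) (by
          intro p hp
          rw [hE0, Finset.mem_filter] at hp
          refine ⟨(hE' p hp.1).1.trans (Nat.le_succ t), ?_⟩
          rw [hstep p hp.1, step_mid _ _ _ h0 (by omega), hp.2]
          rfl) (by omega)
        have hd : Disjoint (BW (t + 1) l E1) (BW (t + 1) l E0) := by
          rw [Finset.disjoint_left]
          intro p hp1 hp0
          unfold BW at hp1 hp0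
          rw [Finset.mem_filter] at hp1 hp0
          have h1 := (Finset.mem_filter.1 hp1.2.1).2
          have h2 := (Finset.mem_filter.1 hp0.2.1).2
          rw [h1] at h2
          exact Bool.noConfusion h2
        have hc : (BW (t + 1) l E1).card + (BW (t + 1) l E0).card ≤ (BW t l E).card := by
          rw [← Finset.card_union_of_disjoint hd]
          apply Finset.card_le_card
          exact Finset.union_subset (hsub E1 (Finset.filter_subset _ _))
            (hsub E0 (Finset.filter_subset _ _))
        have hq : E0.card = E1.card := by omega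
        rw [hq] at i0
        rw [← c1]
        obtain ⟨a, rfl⟩ := Nat.exists_eq_add_of_lt hjl
        obtain ⟨j', rfl⟩ : ∃ j', j = j' + 1 := ⟨j - 1, by omega⟩
        have e1 : j' + 1 + a + 1 - (j' + 1) = a + 1 := by omega
        have e2 : j' + 1 + a + 1 - (j' + 1 + 1) = a := by omega
        have e3 : j' + 1 + a + 1 - (j' + 1 - 1) = a + 2 := by omega
        rw [e1]
        rw [e2] at i1
        rw [e3] at i0
        calc 2 * q * (a + 1) * (2 * E1.card)
            = 2 * q * a * E1.card + 2 * q * (a + 2) * E1.card := by ring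
          _ ≤ (j' + 1 + a + 1) * (BW (t + 1) (j' + 1 + a + 1) E1).card +
              (j' + 1 + a + 1) * (BW (t + 1) (j' + 1 + a + 1) E0).card := Nat.add_le_add i1 i0
          _ = (j' + 1 + a + 1) * ((BW (t + 1) (j' + 1 + a + 1) E1).card +
              (BW (t + 1) (j' + 1 + a + 1) E0).card) := by ring
          _ ≤ (j' + 1 + a + 1) * (BW t (j' + 1 + a + 1) E).card := Nat.mul_le_mul_left _ hc
    · have h1 : l - j = 0 := by omega
      rw [h1]
      simp

end STG
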