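import Pool.Agent.STG.FWD
import Pool.Agent.STG.BWD

/-! PKC: the number of atoms with maximum `k` at time `t`.

`E := (FW t k k).filter (bit p.2 t = false)`. Then `2 |E| = |FW t k k|` (`inv_half`, as `FW t k k`
is invariant at time `t` by `lev_congr`), `E` is invariant at time `t + 1`, the level at time
`t + 1` is `k - 1` (`step_mid`), and `BW (t + 1) k E ⊆ PK t k`.  By `bw_bound` with `l = k`,
`j = k - 1`: `2 q |E| ≤ k |PK t k|`, and by `fw_bound` with `l = k`:
`2 q 2 ^ H ≤ (k + 1) |FW t k k|`. -/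

namespace STG

open Finset

theorem fw_inv (q H t k l : ℕ) : Inv t (FW q H t k l) := by
  classical
  intro p hp x' hx'
  unfold FW at hp ⊢
  rw [Finset.mem_filter] at hp ⊢
  obtain ⟨_, h1, h2, h3⟩ := hp
  have hc : ∀ t' ≤ t, lv p.1 x' t' = lv p.1 p.2 t' := fun t' ht' =>
    lev_congr _ _ _ _ _ _ (fun i hi => hx' i (lt_of_lt_of_le hi ht'))
  exact ⟨Finset.mem_univ _, h1, by rw [hc t le_rfl]; exact h2,
    fun t' ha hb => by rw [hc t' hb]; exact h3 t' ha hb⟩

theorem pk_card (q H t k : ℕ) (ht : t < H) (hk : 0 < k) (hk' : k < 2 * q) :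
    (2 * q) ^ 2 * 2 ^ H ≤ 2 * k * (k + 1) * (PK q H t k).card := by
  classical
  set E : Finset (Seed q H × (Fin H → Bool)) :=
    (FW q H t k k).filter (fun p => bit p.2 t = false) with hE
  have hhalf : 2 * E.card = (FW q H t k k).card := inv_half t ht _ (fw_inv q H t k k) false
  have hEinv : Inv (t + 1) E := by
    intro p hp x' hx'
    rw [hE, Finset.mem_filter] at hp ⊢
    refine ⟨fw_inv q H t k k p hp.1 x' (fun i hi => hx' i (by omega)), ?_⟩
    have h1 : bit x' t = x' ⟨t, ht⟩ := bit_lt x' ⟨t, ht⟩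
    have h2 : bit p.2 t = p.2 ⟨t, ht⟩ := bit_lt p.2 ⟨t, ht⟩
    show bit x' t = false
    rw [h1, hx' ⟨t, ht⟩ (by simp), ← h2]
    exact hp.2
  have hElev : ∀ p ∈ E, birth p.1 ≤ t + 1 ∧ lv p.1 p.2 (t + 1) = k - 1 := by
    intro p hp
    rw [hE, Finset.mem_filter] at hp
    obtain ⟨hp1, hp2⟩ := hp
    unfold FW at hp1
    rw [Finset.mem_filter] at hp1
    obtain ⟨_, h1, h2, _⟩ := hp1
    refine ⟨by omega, ?_⟩
    unfold lv at h2 ⊢
    rw [lev_succ _ _ _ _ _ h1, h2, step_mid _ _ _ hk hk', hp2]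
    simp
  have hB := bw_bound (q := q) (H := H) k hk'.le (t + 1) (by omega) (k - 1) (by omega) E hEinv hElev
  have hF := fw_bound q H t k k ht hk le_rfl hk'
  have hsub : BW (t + 1) k E ⊆ PK q H t k := by
    intro p hp
    unfold BW at hp
    unfold PK
    rw [Finset.mem_filter] at hp ⊢
    obtain ⟨_, h1, h2, h3⟩ := hp
    rw [hE, Finset.mem_filter] at h1
    obtain ⟨h4, _⟩ := h1
    unfold FW at h4
    rw [Finset.mem_filter] at h4
    obtain ⟨_, h5, h6, h7⟩ := h4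
    exact ⟨Finset.mem_univ _, h5, h6, h7, fun t' ha hb => h2 t' ha hb, h3⟩
  have hcard := Finset.card_le_card hsub
  have e1 : k - (k - 1) = 1 := by omega
  have e2 : k + 1 - k = 1 := by omega
  rw [e1] at hB
  rw [e2] at hF
  calc (2 * q) ^ 2 * 2 ^ H = 2 * q * (2 * q * 2 ^ H * 1) := by ring
    _ ≤ 2 * q * ((k + 1) * (FW q H t k k).card) := Nat.mul_le_mul_left _ hF
    _ = 2 * (k + 1) * (2 * q * 1 * E.card) := by rw [← hhalf]; ring
    _ ≤ 2 * (k + 1) * (k * (BW (t + 1) k E).card) := Nat.mul_le_mul_left _ hB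
    _ ≤ 2 * (k + 1) * (k * (PK q H t k).card) := by gcongr
    _ = 2 * k * (k + 1) * (PK q H t k).card := by ring

end STG
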