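import Pool.Agent.STG.Defs

/-! SUM: the telescoping sum and the limit.

`sum_min`: for `k ≥ q` the minimum is at least `A / (k (k + 1))`, as `2 q - k ≤ k`; for `k < q` it
is at least `A / ((2 q - k) (2 q - k + 1))`. The sums telescope: `∑_{k = q}^{2 q - 1} 1 / (k (k + 1))
= 1 / q - 1 / (2 q)` and `∑_{k = q + 1}^{2 q - 1} 1 / (k (k + 1)) = 1 / (q + 1) - 1 / (2 q)`, total
`1 / (q + 1)`. -/

namespace STG

open Finset

theorem tel_sum (A : ℝ) (a b : ℕ) (ha : 1 ≤ a) (hab : a ≤ b) :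
    ∑ k ∈ Ico a b, A / ((k : ℝ) * (k + 1)) = A / a - A / b := by
  induction b, hab using Nat.le_induction with
  | base => simp
  | succ n hn ih =>
    rw [Finset.sum_Ico_succ_top hn, ih]
    have h1 : (0 : ℝ) < n := by
      have : 0 < n := by omega
      exact_mod_cast this
    have h2 : (0 : ℝ) < (n : ℝ) + 1 := by linarith
    push_cast
    field_simp
    ring

theorem sum_min (q : ℕ) (hq : 1 ≤ q) (A : ℝ) (hA : 0 ≤ A) (f : ℕ → ℝ)
    (hf : ∀ k : ℕ, 0 < k → k < 2 * q → A / ((k : ℝ) * (k + 1)) ≤ f k) :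
    A / ((q : ℝ) + 1) ≤ ∑ k ∈ Ico 1 (2 * q), min (f k) (f (2 * q - k)) := by
  have key : ∀ k j : ℕ, 0 < j → j ≤ k → k < 2 * q → A / ((k : ℝ) * (k + 1)) ≤ f k ∧
      A / ((k : ℝ) * (k + 1)) ≤ f j := by
    intro k j hj hjk hk
    refine ⟨hf k (by omega) hk, le_trans ?_ (hf j hj (by omega))⟩
    have h1 : (0 : ℝ) < j := by exact_mod_cast hj
    have h2 : (j : ℝ) ≤ k := by exact_mod_cast hjk
    apply div_le_div_of_nonneg_left hA (by positivity)
    gcongr
  have hsplit : ∑ k ∈ Ico 1 (2 * q), min (f k) (f (2 * q - k)) =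
      ∑ k ∈ Ico 1 q, min (f k) (f (2 * q - k)) + ∑ k ∈ Ico q (2 * q), min (f k) (f (2 * q - k)) :=
    (Finset.sum_Ico_consecutive _ hq (by omega)).symm
  have h2 : A / (q : ℝ) - A / ((2 * q : ℕ) : ℝ) ≤
      ∑ k ∈ Ico q (2 * q), min (f k) (f (2 * q - k)) := by
    rw [← tel_sum A q (2 * q) hq (by omega)]
    apply Finset.sum_le_sum
    intro k hk
    rw [Finset.mem_Ico] at hk
    have := key k (2 * q - k) (by omega) (by omega) hk.2
    exact le_min this.1 this.2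
  have h1 : A / ((q + 1 : ℕ) : ℝ) - A / ((2 * q : ℕ) : ℝ) ≤
      ∑ k ∈ Ico 1 q, min (f k) (f (2 * q - k)) := by
    rw [← tel_sum A (q + 1) (2 * q) (by omega) (by omega)]
    have hre : ∑ k ∈ Ico (q + 1) (2 * q), A / ((k : ℝ) * (k + 1)) =
        ∑ k ∈ Ico 1 q, A / (((2 * q - k : ℕ) : ℝ) * ((2 * q - k : ℕ) + 1)) := by
      apply Finset.sum_nbij' (fun k => 2 * q - k) (fun k => 2 * q - k)
      · intro k hk; rw [Finset.mem_Ico] at hk ⊢; omega
      · intro k hk; rw [Finset.mem_Ico] at hk ⊢; omega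
      · intro k hk; rw [Finset.mem_Ico] at hk; omega
      · intro k hk; rw [Finset.mem_Ico] at hk; omega
      · intro k hk
        rw [Finset.mem_Ico] at hk
        have : 2 * q - (2 * q - k) = k := by omega
        rw [this]
    rw [hre]
    apply Finset.sum_le_sum
    intro k hk
    rw [Finset.mem_Ico] at hk
    have := key (2 * q - k) k (by omega) (by omega) (by omega)
    exact le_min this.2 this.1
  rw [hsplit]
  have hq0 : (0 : ℝ) < q := by exact_mod_cast hq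
  have h3 : A / ((q : ℝ) + 1) = (A / ((q + 1 : ℕ) : ℝ) - A / ((2 * q : ℕ) : ℝ)) +
      (A / (q : ℝ) - A / ((2 * q : ℕ) : ℝ)) := by
    push_cast
    field_simp
    ring
  rw [h3]
  exact add_le_add h1 h2

/-- The limit. -/
theorem lim_ratio (α : ℝ) (hα : 1 / 2 < α) : ∃ q H : ℕ, 1 ≤ q ∧ 1 ≤ H ∧
    (1 - α) * (2 * q * (8 * (q : ℝ) ^ 2 + H)) < α * (2 * q * (H * (q / (q + 1)))) := by
  obtain ⟨q, hq⟩ := exists_nat_gt (max 1 (1 / (2 * α - 1)))
  have hq1 : (1 : ℝ) < q := (le_max_left _ _).trans_lt hq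
  have hq2 : 1 / (2 * α - 1) < q := (le_max_right _ _).trans_lt hq
  have hpos : 0 < 2 * α - 1 := by linarith
  rw [div_lt_iff₀ hpos] at hq2
  -- gap
  have hgap : 0 < α * (q / (q + 1)) - (1 - α) := by
    have h : α * ((q : ℝ) / (q + 1)) - (1 - α) = ((2 * α - 1) * q - (1 - α)) / (q + 1) := by
      field_simp
      ring
    rw [h]
    apply div_pos _ (by linarith)
    nlinarith
  set g := α * ((q : ℝ) / (q + 1)) - (1 - α) with hg
  obtain ⟨H, hH⟩ := exists_nat_gt (max 1 ((1 - α) * (8 * (q : ℝ) ^ 2) / g))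
  have hH1 : (1 : ℝ) < H := (le_max_left _ _).trans_lt hH
  have hH2 : (1 - α) * (8 * (q : ℝ) ^ 2) / g < H := (le_max_right _ _).trans_lt hH
  rw [div_lt_iff₀ hgap] at hH2
  refine ⟨q, H, by exact_mod_cast hq1.le, by exact_mod_cast hH1.le, ?_⟩
  have h0 : (0 : ℝ) < 2 * q := by linarith
  have h1 : (1 - α) * (8 * (q : ℝ) ^ 2 + H) < α * (H * (q / (q + 1))) := by
    have : α * (H * ((q : ℝ) / (q + 1))) - (1 - α) * (8 * (q : ℝ) ^ 2 + H) =
        H * g - (1 - α) * (8 * (q : ℝ) ^ 2) := by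
      rw [hg]; ring
    linarith
  calc (1 - α) * (2 * q * (8 * (q : ℝ) ^ 2 + H)) = (2 * q) * ((1 - α) * (8 * (q : ℝ) ^ 2 + H)) := by
        ring
    _ < (2 * q) * (α * (H * (q / (q + 1)))) := mul_lt_mul_of_pos_left h1 h0
    _ = _ := by ring

end STG
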