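import Pool.Agent.STG.MAR

/-! ZCT: the number of closed pairs.

The pair of the type `(s, σ, v)` and the unit `(β, d)` is closed iff
`2 q ≤ lv σ (xn v β) H + thr`; for given `s, σ, v, β` the number of `d` with this property is
`lv σ (xn v β) H ≤ 2 q` (`lev_le`; for `s = true` use `Fin.rev`). For fixed `v` the map
`β ↦ xn v β` is a bijection, hence the number of closed pairs is
`2 * ∑ σ, ∑ v, ∑ x, lv σ x H = 2 * ∑ σ, 2 ^ H * (2 ^ H * ini σ)` (`lev_sum`). The seeds with
birth `0` contribute at most `(2 q) (2 q) (2 q)` to `∑ σ, ini σ`, the others at most `H q`. -/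

namespace STG

open Finset

theorem seed_sum (q H : ℕ) : ∑ σ : Seed q H, ini σ ≤ (2 * q) ^ 3 + H * q := by
  classical
  rw [← Finset.sum_filter_add_sum_filter_not univ (fun σ : Seed q H => birth σ = 0)]
  have h1 : ∑ σ ∈ univ.filter (fun σ : Seed q H => birth σ = 0), ini σ ≤ (2 * q) ^ 3 := by
    have hb : ∀ σ ∈ univ.filter (fun σ : Seed q H => birth σ = 0), ini σ ≤ 2 * q := by
      intro σ _
      exact σ.1.2.1.2.le
    have hc : (univ.filter (fun σ : Seed q H => birth σ = 0)).card ≤ (2 * q) * (2 * q) := by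
      have h2 := card_le_card_of_injOn (s := univ.filter (fun σ : Seed q H => birth σ = 0))
        (t := (univ : Finset (Fin (2 * q) × Fin (2 * q))))
        (fun σ => (σ.1.2.1, σ.1.2.2)) (fun σ _ => mem_univ _) (by
          intro σ hσ σ' hσ' heq
          have e1 : birth σ = 0 := (mem_filter.1 hσ).2
          have e2 : birth σ' = 0 := (mem_filter.1 hσ').2
          have e3 : σ.1.1 = σ'.1.1 := Fin.ext (e1.trans e2.symm)
          have e4 : σ.1.2.1 = σ'.1.2.1 := congrArg Prod.fst heq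
          have e5 : σ.1.2.2 = σ'.1.2.2 := congrArg Prod.snd heq
          exact Subtype.ext (Prod.ext e3 (Prod.ext e4 e5)))
      simpa using h2
    have h3 := Finset.sum_le_card_nsmul _ _ _ hb
    rw [smul_eq_mul] at h3
    calc _ ≤ _ := h3
      _ ≤ (2 * q) * (2 * q) * (2 * q) := Nat.mul_le_mul_right _ hc
      _ = (2 * q) ^ 3 := by ring
  have h2 : ∑ σ ∈ univ.filter (fun σ : Seed q H => ¬ birth σ = 0), ini σ ≤ H * q := by
    have hspec : ∀ σ : Seed q H, ¬ birth σ = 0 → ini σ = 1 ∧ (σ.1.2.2 : ℕ) < q := by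
      intro σ hσ
      rcases σ.2.2 with h | h
      · exact absurd h.1 hσ
      · exact h.2
    have hb : ∀ σ ∈ univ.filter (fun σ : Seed q H => ¬ birth σ = 0), ini σ ≤ 1 := by
      intro σ hσ
      exact (hspec σ (mem_filter.1 hσ).2).1.le
    have hc : (univ.filter (fun σ : Seed q H => ¬ birth σ = 0)).card ≤ H * q := by
      have h2 := card_le_card_of_injOn (s := univ.filter (fun σ : Seed q H => ¬ birth σ = 0))
        (t := (univ : Finset (Fin H)) ×ˢ (range q))
        (fun σ => (σ.1.1, (σ.1.2.2 : ℕ))) (by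
          intro σ hσ
          have := hspec σ (mem_filter.1 hσ).2
          exact mem_product.2 ⟨mem_univ _, mem_range.2 this.2⟩) (by
          intro σ hσ σ' hσ' heq
          have e1 := hspec σ (mem_filter.1 hσ).2
          have e2 := hspec σ' (mem_filter.1 hσ').2
          have e3 : σ.1.1 = σ'.1.1 := (Prod.ext_iff.1 heq).1
          have e5 : (σ.1.2.2 : ℕ) = (σ'.1.2.2 : ℕ) := (Prod.ext_iff.1 heq).2
          have e4 : σ.1.2.1 = σ'.1.2.1 := Fin.ext (e1.1.trans e2.1.symm)
          exact Subtype.ext (Prod.ext e3 (Prod.ext e4 (Fin.ext e5))))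
      simpa using h2
    have h3 := Finset.sum_le_card_nsmul _ _ _ hb
    rw [smul_eq_mul, mul_one] at h3
    exact h3.trans hc
  exact Nat.add_le_add h1 h2

/-- The number of thresholds which close a level `L`. -/
theorem thr_count (m L : ℕ) (hL : L ≤ m) (s : Bool) :
    ∑ d : Fin m, (if ¬ (L + (if s then (Fin.rev d : ℕ) else (d : ℕ)) < m) then 1 else 0) = L := by
  have h0 : ∑ d : Fin m, (if ¬ (L + (d : ℕ) < m) then 1 else 0) = L := by
    rw [Fin.sum_univ_eq_sum_range (fun d => if ¬ (L + d < m) then 1 else 0) m, ← card_filter]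
    have h1 : (range m).filter (fun d => ¬ (L + d < m)) = Ico (m - L) m := by
      ext d
      rw [mem_filter, mem_range, mem_Ico]
      omega
    rw [h1, Nat.card_Ico]
    omega
  cases s with
  | false => simpa using h0
  | true =>
    simp only [if_true]
    refine Eq.trans ?_ h0
    exact Equiv.sum_comp Fin.revPerm (fun d : Fin m => if ¬ (L + (d : ℕ) < m) then 1 else 0)

theorem xn_xn {H : ℕ} (v β : Fin H → Bool) : xn v (xn v β) = β := by
  funext i
  unfold xn
  cases v i <;> cases β i <;> rfl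

theorem xn_sum {H : ℕ} (v : Fin H → Bool) (f : (Fin H → Bool) → ℕ) :
    ∑ β : Fin H → Bool, f (xn v β) = ∑ x : Fin H → Bool, f x := by
  classical
  exact Equiv.sum_comp (⟨xn v, xn v, xn_xn v, xn_xn v⟩ : (Fin H → Bool) ≃ (Fin H → Bool)) f

theorem closed_card (q H : ℕ) :
    Nat.card {s : TT q H × UU q H // ¬ opn s.2 s.1} = 2 * 4 ^ H * ∑ σ : Seed q H, ini σ := by
  classical
  rw [Nat.card_eq_fintype_card, Fintype.card_subtype, card_filter]
  simp only [Fintype.sum_prod_type]
  have h1 : ∀ (s : Bool) (σ : Seed q H) (v β : Fin H → Bool),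
      (∑ d : Fin (2 * q), (if ¬ opn ((β, d) : UU q H) ((s, σ, v) : TT q H) then 1 else 0)) =
        lv σ (xn v β) H := by
    intro s σ v β
    have hL : lv σ (xn v β) H ≤ 2 * q := lev_le _ _ _ _ _ σ.1.2.1.2.le
    refine Eq.trans ?_ (thr_count (2 * q) (lv σ (xn v β) H) hL s)
    exact Finset.sum_congr rfl (fun d _ => if_congr Iff.rfl rfl rfl)
  have h2 : ∀ (s : Bool) (σ : Seed q H) (v : Fin H → Bool),
      (∑ β : Fin H → Bool, ∑ d : Fin (2 * q),
        (if ¬ opn ((β, d) : UU q H) ((s, σ, v) : TT q H) then 1 else 0)) = 2 ^ H * ini σ := by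
    intro s σ v
    rw [Finset.sum_congr rfl (fun β _ => h1 s σ v β), xn_sum v (fun x => lv σ x H)]
    exact lev_sum (2 * q) (birth σ) (ini σ) σ.1.2.1.2.le H H le_rfl
  have h3 : ∀ (s : Bool) (σ : Seed q H),
      (∑ v : Fin H → Bool, ∑ β : Fin H → Bool, ∑ d : Fin (2 * q),
        (if ¬ opn ((β, d) : UU q H) ((s, σ, v) : TT q H) then 1 else 0)) = 4 ^ H * ini σ := by
    intro s σ
    rw [Finset.sum_congr rfl (fun v _ => h2 s σ v), Finset.sum_const]
    simp only [card_univ, Fintype.card_fun, Fintype.card_bool, Fintype.card_fin, smul_eq_mul]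
    rw [← mul_assoc, ← mul_pow]
    norm_num
  have h4 : ∀ (s : Bool),
      (∑ σ : Seed q H, ∑ v : Fin H → Bool, ∑ β : Fin H → Bool, ∑ d : Fin (2 * q),
        (if ¬ opn ((β, d) : UU q H) ((s, σ, v) : TT q H) then 1 else 0)) =
        4 ^ H * ∑ σ : Seed q H, ini σ := by
    intro s
    rw [Finset.sum_congr rfl (fun σ _ => h3 s σ), ← Finset.mul_sum]
  rw [Finset.sum_congr rfl (fun s _ => h4 s), Finset.sum_const]
  simp only [card_univ, Fintype.card_bool, smul_eq_mul]
  ring

theorem z_le (q H : ℕ) (C : SMT.TCert (TT q H) (UU q H) H) (hC : C.opn = opn) :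
    C.z ≤ 4 ^ H * (2 * q) * (8 * q ^ 2 + H) := by
  unfold SMT.TCert.z
  rw [hC, closed_card]
  calc 2 * 4 ^ H * ∑ σ : Seed q H, ini σ ≤ 2 * 4 ^ H * ((2 * q) ^ 3 + H * q) :=
        Nat.mul_le_mul_left _ (seed_sum q H)
    _ = 4 ^ H * (2 * q) * (8 * q ^ 2 + H) := by ring

end STG
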