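import Pool.Agent.STG.CRT
import Pool.Agent.STG.PKC
import Pool.Agent.STG.ZCT
import Pool.Agent.STG.SUM

/-! EXC: certificates with ratio close to `1/2`.

`c t k = min |PK t k| |PK t (2 q - k)|`. By `pk_card` and `sum_min` with `A = (2 q)^2 2^H / 2`:
`∑_k c t k ≥ 2 q^2 2^H / (q + 1)`, hence `h ≥ 4^H H 2 q^2 / (q + 1)`. -/

namespace STG

open Finset

theorem exc_sum (q H t : ℕ) (hq : 1 ≤ q) (ht : t < H) :
    (2 * q) ^ 2 * 2 ^ H / 2 / ((q : ℝ) + 1) ≤
      ((∑ k ∈ Ico 1 (2 * q), min (PK q H t k).card (PK q H t (2 * q - k)).card : ℕ) : ℝ) := by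
  have h := sum_min q hq ((2 * (q : ℝ)) ^ 2 * 2 ^ H / 2) (by positivity)
    (fun k => ((PK q H t k).card : ℝ)) (fun k hk hk' => by
      have h1 := pk_card q H t k ht hk hk'
      have h2 : (2 * (q : ℝ)) ^ 2 * 2 ^ H ≤ 2 * k * (k + 1) * ((PK q H t k).card : ℝ) := by
        exact_mod_cast h1
      have hk0 : (0 : ℝ) < k := by exact_mod_cast hk
      rw [div_le_iff₀ (by positivity)]
      linarith)
  refine h.trans (le_of_eq ?_)
  push_cast
  rfl

theorem exists_cert (α : ℝ) (hα : 1 / 2 < α) :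
    ∃ (T U : Type) (_ : Fintype T) (_ : Fintype U) (_ : Nonempty U) (N : ℕ)
      (C : SMT.TCert T U N), 0 < C.h ∧ (C.z : ℝ) < α * (C.z + C.h) := by
  obtain ⟨q, H, hq, hH, hlim⟩ := lim_ratio α hα
  obtain ⟨C, hopn, hh⟩ := cert_of q H
    (fun t k => min (PK q H t k).card (PK q H t (2 * q - k)).card)
    (fun t _ k _ _ => ⟨min_le_left _ _, min_le_right _ _⟩)
  have hz := z_le q H C hopn
  have hq0 : (0 : ℝ) < q := by exact_mod_cast hq
  have hH0 : (0 : ℝ) < H := by exact_mod_cast hH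
  have hhR : (4 : ℝ) ^ H * (2 * q * (H * (q / (q + 1)))) ≤ (C.h : ℝ) := by
    rw [hh]
    push_cast
    have h1 : ∀ t ∈ range H, (2 * (q : ℝ)) ^ 2 * 2 ^ H / 2 / ((q : ℝ) + 1) ≤
        ∑ k ∈ Ico 1 (2 * q), min ((PK q H t k).card : ℝ) ((PK q H t (2 * q - k)).card : ℝ) := by
      intro t ht
      have h2 := exc_sum q H t hq (Finset.mem_range.1 ht)
      push_cast at h2
      exact h2
    have h3 := Finset.card_nsmul_le_sum _ _ _ h1
    rw [Finset.card_range, nsmul_eq_mul] at h3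
    have h4 : (4 : ℝ) ^ H = 2 ^ H * 2 ^ H := by
      rw [← mul_pow]
      norm_num
    have h5 : (4 : ℝ) ^ H * (2 * q * (H * (q / (q + 1)))) =
        2 ^ H * (H * ((2 * (q : ℝ)) ^ 2 * 2 ^ H / 2 / ((q : ℝ) + 1))) := by
      rw [h4]
      field_simp
      try ring
    rw [h5]
    exact mul_le_mul_of_nonneg_left h3 (by positivity)
  have hzR : (C.z : ℝ) ≤ (4 : ℝ) ^ H * (2 * q * (8 * (q : ℝ) ^ 2 + H)) := by
    have h1 : (C.z : ℝ) ≤ ((4 ^ H * (2 * q) * (8 * q ^ 2 + H) : ℕ) : ℝ) := by exact_mod_cast hz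
    refine h1.trans (le_of_eq ?_)
    push_cast
    ring
  have hpos : (0 : ℝ) < C.h := lt_of_lt_of_le (by positivity) hhR
  refine ⟨TT q H, UU q H, inferInstance, inferInstance,
    ⟨(fun _ => false, ⟨0, by omega⟩)⟩, H, C, by exact_mod_cast hpos, ?_⟩
  have key : (1 - α) * (C.z : ℝ) < α * C.h := by
    by_cases h1 : 1 - α ≤ 0
    · have h2 : (1 - α) * (C.z : ℝ) ≤ 0 := mul_nonpos_of_nonpos_of_nonneg h1 (Nat.cast_nonneg _)
      have h3 : 0 < α * (C.h : ℝ) := mul_pos (by linarith) hpos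
      linarith
    · have h2 : (1 - α) * (C.z : ℝ) ≤ (1 - α) * ((4 : ℝ) ^ H * (2 * q * (8 * (q : ℝ) ^ 2 + H))) :=
        mul_le_mul_of_nonneg_left hzR (by linarith)
      have h3 : α * ((4 : ℝ) ^ H * (2 * q * (H * (q / (q + 1))))) ≤ α * C.h :=
        mul_le_mul_of_nonneg_left hhR (by linarith)
      have h4 := mul_lt_mul_of_pos_left hlim (show (0 : ℝ) < 4 ^ H by positivity)
      have h5 : (1 - α) * ((4 : ℝ) ^ H * (2 * q * (8 * (q : ℝ) ^ 2 + H))) =
        4 ^ H * ((1 - α) * (2 * q * (8 * (q : ℝ) ^ 2 + H))) := by ring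
      have h6 : α * ((4 : ℝ) ^ H * (2 * q * (H * (q / (q + 1))))) =
        4 ^ H * (α * (2 * q * (H * (q / (q + 1))))) := by ring
      rw [h5] at h2
      rw [h6] at h3
      linarith
  linarith

end STG
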