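import Pool.Agent.STG.WLK

/-! EMB: the embedding of the atoms.  All proofs are by cases `j < t` or `t ≤ j` and case checks
of booleans: `(x == y) == y` is `x`. -/

namespace STG

private theorem emb_bool1 (a b : Bool) : ((a == b) == b) = a := by
  cases a <;> cases b <;> rfl

private theorem emb_bool2 (a b : Bool) : (b == (a == b)) = a := by
  cases a <;> cases b <;> rfl

private theorem emb_mix_lt {H : ℕ} (t : ℕ) (y z : Fin H → Bool) (i : Fin H) (h : (i : ℕ) < t) :
    mix t y z i = y i := by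
  unfold mix
  rw [if_pos h]

private theorem emb_mix_ge {H : ℕ} (t : ℕ) (y z : Fin H → Bool) (i : Fin H)
    (h : ¬ (i : ℕ) < t) : mix t y z i = z i := by
  unfold mix
  rw [if_neg h]

theorem emb_xn {q H : ℕ} (s : Bool) (t : ℕ) (y : Fin H → Bool) (p : At q H) :
    xn (emb s t y p).1.2.2 (emb s t y p).2.1 = p.2.1 := by
  funext i
  show (mix t (xn p.2.1 y) y i == mix t y (xn p.2.1 y) i) = p.2.1 i
  by_cases h : (i : ℕ) < t
  · rw [emb_mix_lt _ _ _ _ h, emb_mix_lt _ _ _ _ h]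
    exact emb_bool1 _ _
  · rw [emb_mix_ge _ _ _ _ h, emb_mix_ge _ _ _ _ h]
    exact emb_bool2 _ _

theorem emb_tlv {q H : ℕ} (s : Bool) (t : ℕ) (y : Fin H → Bool) (p : At q H) (r : ℕ) :
    tlv (emb s t y p).2 (emb s t y p).1 r = lv p.1 p.2.1 r := by
  unfold tlv
  rw [emb_xn]
  rfl

theorem emb_thr {q H : ℕ} (s : Bool) (t : ℕ) (y : Fin H → Bool) (p : At q H) :
    thr (emb s t y p).2 s = (p.2.2 : ℕ) := by
  cases s
  · rfl
  · show ((Fin.rev (Fin.rev p.2.2) : Fin (2 * q)) : ℕ) = _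
    rw [Fin.rev_rev]

/-- The atom is determined by its pair, whatever `t` and `y` are. -/
theorem emb_atom {q H : ℕ} (s : Bool) (t t' : ℕ) (y y' : Fin H → Bool) (p p' : At q H)
    (h : emb s t y p = emb s t' y' p') : p = p' := by
  have h1 : p.1 = p'.1 := congrArg (fun z => z.1.2.1) h
  have h2 : p.2.1 = p'.2.1 := by
    rw [← emb_xn s t y p, ← emb_xn s t' y' p', h]
  have h3 : p.2.2 = p'.2.2 := by
    apply Fin.ext
    rw [← emb_thr s t y p, ← emb_thr s t' y' p', h]
  exact Prod.ext h1 (Prod.ext h2 h3)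

theorem emb_inj {q H : ℕ} (s : Bool) (t : ℕ) (y y' : Fin H → Bool) (p p' : At q H)
    (h : emb s t y p = emb s t y' p') : y = y' ∧ p = p' := by
  refine ⟨?_, emb_atom s t t y y' p p' h⟩
  have h1 : mix t (xn p.2.1 y) y = mix t (xn p'.2.1 y') y' := congrArg (fun z => z.1.2.2) h
  have h2 : mix t y (xn p.2.1 y) = mix t y' (xn p'.2.1 y') := congrArg (fun z => z.2.1) h
  funext i
  by_cases hi : (i : ℕ) < t
  · have := congrFun h2 i
    rw [emb_mix_lt _ _ _ _ hi, emb_mix_lt _ _ _ _ hi] at this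
    exact this
  · have := congrFun h1 i
    rw [emb_mix_ge _ _ _ _ hi, emb_mix_ge _ _ _ _ hi] at this
    exact this

theorem emb_opn {q H : ℕ} (s : Bool) (t k : ℕ) (y : Fin H → Bool) (p : At q H) (h : Peak t k p) :
    opn (emb s t y p).2 (emb s t y p).1 := by
  show tlv (emb s t y p).2 (emb s t y p).1 H + thr (emb s t y p).2 s < 2 * q
  rw [emb_tlv, emb_thr]
  exact h.2.2.2.2

/-- The last time of the maximum is unique. -/
theorem peak_uniq {q H : ℕ} (t t' k k' : ℕ) (ht : t ≤ H) (ht' : t' ≤ H) (p : At q H)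
    (h : Peak t k p) (h' : Peak t' k' p) : t = t' ∧ k = k' := by
  obtain ⟨a1, a2, a3, a4, _⟩ := h
  obtain ⟨b1, b2, b3, b4, _⟩ := h'
  have e : t = t' := by
    rcases lt_trichotomy t t' with hl | hl | hl
    · have c1 := a4 t' hl ht'
      have c2 := b3 t a1 hl.le
      omega
    · exact hl
    · have c1 := b4 t hl ht
      have c2 := a3 t' b1 hl.le
      omega
  refine ⟨e, ?_⟩
  subst e
  omega

theorem emb_comp {q H : ℕ} (t k : ℕ) (ht : t < H) (hk : 0 < k) (hk' : k < 2 * q)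
    (y : Fin H → Bool) (p p' : At q H) (h : Peak t k p) (h' : Peak t (2 * q - k) p') :
    comp t (emb true t y p).2 (emb true t y p).1 (emb false t (mix t y (neg y)) p').1 := by
  obtain ⟨a1, a2, _, _, _⟩ := h
  obtain ⟨b1, b2, _, _, _⟩ := h'
  have e1 : tlv (emb true t y p).2 (emb true t y p).1 t = k := by
    rw [emb_tlv]
    exact a2
  have e2 : tlv (emb true t y p).2 (emb false t (mix t y (neg y)) p').1 t = 2 * q - k := by
    rw [← b2]
    show lev (2 * q) (birth p'.1) (ini p'.1) _ t = lev (2 * q) (birth p'.1) (ini p'.1) _ t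
    apply lev_congr
    intro i hi
    show (mix t (xn p'.2.1 (mix t y (neg y))) (mix t y (neg y)) i == mix t y (xn p.2.1 y) i)
      = p'.2.1 i
    rw [emb_mix_lt _ _ _ _ hi, emb_mix_lt _ _ _ _ hi]
    show ((p'.2.1 i == mix t y (neg y) i) == y i) = p'.2.1 i
    rw [emb_mix_lt _ _ _ _ hi]
    exact emb_bool1 _ _
  refine ⟨ht, rfl, rfl, a1, b1, ?_, ?_, ?_, ?_⟩
  · rw [e1]
    exact hk
  · rw [e2]
    omega
  · rw [e1, e2]
    omega
  · intro j hj
    have hj' : ¬ (j : ℕ) < t := by omega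
    show mix t (xn p.2.1 y) y j ≠ mix t (xn p'.2.1 (mix t y (neg y))) (mix t y (neg y)) j
    rw [emb_mix_ge _ _ _ _ hj', emb_mix_ge _ _ _ _ hj', emb_mix_ge _ _ _ _ hj']
    unfold neg
    cases y j <;> decide

theorem emb_cel {q H : ℕ} (t : ℕ) (y : Fin H → Bool) (p p' : At q H) :
    cel t (emb true t y p).2 = cel t (emb false t (mix t y (neg y)) p').2 := by
  rw [cel_iff]
  intro j hj
  show mix t y (xn p.2.1 y) j = mix t (mix t y (neg y)) (xn p'.2.1 (mix t y (neg y))) j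
  rw [emb_mix_lt _ _ _ _ hj, emb_mix_lt _ _ _ _ hj, emb_mix_lt _ _ _ _ hj]

theorem flip_inj {H : ℕ} (t : ℕ) (y y' : Fin H → Bool)
    (h : mix t y (neg y) = mix t y' (neg y')) : y = y' := by
  funext i
  have hi := congrFun h i
  by_cases hl : (i : ℕ) < t
  · rw [emb_mix_lt _ _ _ _ hl, emb_mix_lt _ _ _ _ hl] at hi
    exact hi
  · rw [emb_mix_ge _ _ _ _ hl, emb_mix_ge _ _ _ _ hl] at hi
    unfold neg at hi
    revert hi
    cases y i <;> cases y' i <;> decide

end STG
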