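import Pool.Agent.STG.JOI
import Pool.Agent.STG.EMB

/-! CRT: the certificate.

Let `c t k ≤ |PK t k|, |PK t (2 q - k)|`. Choose for all `t`, `k` injections `f t k : Fin (c t k) →
At` with values in `PK t k` and `g t k : Fin (c t k) → At` with values in `PK t (2 q - k)` (for
`t < H`, `0 < k < 2 q`). The index set is `{(t, k, i, y) : t < H, 1 ≤ k < 2 q, i < c t k, y}`,
and `M` is its image under
`(t, k, i, y) ↦ (emb true t y (f t k i), emb false t (mix t y (neg y)) (g t k i))`.
Both coordinates are injective: `emb_atom` gives the atom, `peak_uniq` gives `t` and `k`, `emb_inj`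
(and `flip_inj`) gives `y`, and then `i`.
`M_spec`: `emb_opn`, `emb_comp`, `joi_of_comp` (with `i ≤ t < H`), and the cells agree at time `i`
since they agree at time `t` (`emb_cel`, `cel_mono`). -/

namespace STG

open Finset

private theorem crt_exists {α : Type} (s : Finset α) (n : ℕ) (h : n ≤ s.card) :
    ∃ f : Fin n → α, (∀ i, f i ∈ s) ∧ Function.Injective f := by
  refine ⟨fun i => (s.equivFin.symm (Fin.castLE h i)).1, fun i => (s.equivFin.symm _).2, ?_⟩
  intro i j hij
  have h1 := s.equivFin.symm.injective (Subtype.ext hij)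
  exact Fin.castLE_injective h h1

private theorem crt_cel {q H : ℕ} (u u' : UU q H) (t : ℕ) (h : cel t u = cel t u') :
    ∀ i, i ≤ t → cel i u = cel i u' := by
  intro i hi
  rw [cel_iff] at h ⊢
  exact fun j hj => h j (lt_of_lt_of_le hj hi)

private theorem crt_mem {q H : ℕ} (t k : ℕ) (p : At q H) (h : p ∈ PK q H t k) : Peak t k p := by
  classical
  unfold PK at h
  exact (Finset.mem_filter.1 h).2

theorem cert_of (q H : ℕ) (c : ℕ → ℕ → ℕ)
    (hc : ∀ t < H, ∀ k, 0 < k → k < 2 * q →
      c t k ≤ (PK q H t k).card ∧ c t k ≤ (PK q H t (2 * q - k)).card) :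
    ∃ C : SMT.TCert (TT q H) (UU q H) H, C.opn = opn ∧
      C.h = 2 ^ H * ∑ t ∈ range H, ∑ k ∈ Ico 1 (2 * q), c t k := by
  classical
  have key : ∀ (t : Fin H) (k : Fin (2 * q - 1)),
      ∃ (f g : Fin (c t (1 + k)) → At q H), (∀ i, Peak t (1 + k) (f i)) ∧
        Function.Injective f ∧ (∀ i, Peak t (2 * q - (1 + k)) (g i)) ∧ Function.Injective g := by
    intro t k
    have hk := k.2
    obtain ⟨h1, h2⟩ := hc t t.2 (1 + k) (by omega) (by omega)
    obtain ⟨f, hf, hf'⟩ := crt_exists _ _ h1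
    obtain ⟨g, hg, hg'⟩ := crt_exists _ _ h2
    exact ⟨f, g, fun i => crt_mem _ _ _ (hf i), hf', fun i => crt_mem _ _ _ (hg i), hg'⟩
  choose f g hf hfi hg hgi using key
  let Idx : Type := Σ t : Fin H, Σ k : Fin (2 * q - 1), Fin (c t (1 + k)) × (Fin H → Bool)
  let φ : Idx → (TT q H × UU q H) × (TT q H × UU q H) := fun j =>
    (emb true j.1 j.2.2.2 (f j.1 j.2.1 j.2.2.1),
      emb false j.1 (mix j.1 j.2.2.2 (neg j.2.2.2)) (g j.1 j.2.1 j.2.2.1))
  have hφ1 : ∀ j j' : Idx, (φ j).1 = (φ j').1 → j = j' := by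
    rintro ⟨t, k, i, y⟩ ⟨t', k', i', y'⟩ h
    have h1 : f t k i = f t' k' i' := emb_atom true _ _ y y' _ _ h
    have h2 := hf t k i
    rw [h1] at h2
    obtain ⟨h3, h4⟩ := peak_uniq _ _ _ _ t.2.le t'.2.le _ h2 (hf t' k' i')
    have h5 : t = t' := Fin.ext h3
    subst h5
    have h6 : k = k' := Fin.ext (by omega)
    subst h6
    have h7 : y = y' := (emb_inj true _ y y' _ _ h).1
    have h9 : i = i' := hfi t k h1
    rw [h7, h9]
  have hφ2 : ∀ j j' : Idx, (φ j).2 = (φ j').2 → j = j' := by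
    rintro ⟨t, k, i, y⟩ ⟨t', k', i', y'⟩ h
    have h1 : g t k i = g t' k' i' := emb_atom false _ _ _ _ _ _ h
    have h2 := hg t k i
    rw [h1] at h2
    obtain ⟨h3, h4⟩ := peak_uniq _ _ _ _ t.2.le t'.2.le _ h2 (hg t' k' i')
    have h5 : t = t' := Fin.ext h3
    subst h5
    have hk := k.2
    have hk' := k'.2
    have h6 : k = k' := Fin.ext (by omega)
    subst h6
    have h9 : i = i' := hgi t k h1
    have h10 : y = y' := flip_inj _ y y' (emb_inj false _ _ _ _ _ h).1
    rw [h9, h10]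
  have hφ : Function.Injective φ := fun j j' h => hφ1 j j' (by rw [h])
  let C : SMT.TCert (TT q H) (UU q H) H :=
    { left := fun a => a.1
      cell := cel
      cell_zero := cel_zero
      cell_mono := cel_mono
      join := joi
      join_cell := fun i u u' a b h hc => joi_cell i u u' a b h hc
      join_uniq := joi_uniq
      join_side := fun i u a b h => ⟨h.1.2.1, h.1.2.2.1⟩
      opn := opn
      indep := joi_indep
      M := (Finset.univ : Finset Idx).map ⟨φ, hφ⟩
      M_spec := by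
        intro m hm
        obtain ⟨⟨t, k, i, y⟩, -, rfl⟩ := Finset.mem_map.1 hm
        have hk := k.2
        refine ⟨emb_opn true _ _ _ _ (hf t k i), emb_opn false _ _ _ _ (hg t k i), ?_⟩
        have h1 := emb_comp (q := q) (t : ℕ) (1 + k) t.2 (by omega) (by omega) y (f t k i)
          (g t k i) (hf t k i) (hg t k i)
        obtain ⟨r, hr, hr'⟩ := joi_of_comp _ _ _ _ h1
        exact ⟨r, lt_of_le_of_lt hr t.2,
          crt_cel _ _ (t : ℕ) (emb_cel (t : ℕ) y (f t k i) (g t k i)) r hr, hr'⟩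
      M_match := by
        intro m hm m' hm' h
        obtain ⟨j, -, rfl⟩ := Finset.mem_map.1 hm
        obtain ⟨j', -, rfl⟩ := Finset.mem_map.1 hm'
        rcases h with h | h
        · rw [hφ1 j j' h]
        · rw [hφ2 j j' h] }
  refine ⟨C, rfl, ?_⟩
  show ((Finset.univ : Finset Idx).map ⟨φ, hφ⟩).card = _
  rw [Finset.card_map, Finset.card_univ, Fintype.card_sigma]
  have h1 : ∀ t : Fin H, Fintype.card (Σ k : Fin (2 * q - 1), Fin (c t (1 + k)) × (Fin H → Bool)) =
      2 ^ H * ∑ k ∈ Ico 1 (2 * q), c t k := by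
    intro t
    rw [Fintype.card_sigma, Finset.sum_Ico_eq_sum_range, Finset.mul_sum, Finset.sum_range]
    refine Finset.sum_congr rfl fun k _ => ?_
    rw [Fintype.card_prod, Fintype.card_fin, Fintype.card_fun, Fintype.card_bool,
      Fintype.card_fin, mul_comm]
  rw [Finset.sum_congr rfl (fun t _ => h1 t), ← Finset.mul_sum,
    Finset.sum_range (fun t => ∑ k ∈ Ico 1 (2 * q), c t k)]

end STG
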