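import Pool.Agent.SMT.Defs

/-!
STG: certificates of the tree game with ratio close to `1/2` (MP_8d7caf_lc).

A type is a side, a seed (birth time, initial level, copy number) and a word `v` of `H` bits; a
unit is a word `β` of `H` bits and a threshold.  The level of a type at a unit starts at the
initial level, waits there until the birth time and then moves up at time `t` if `v t = β t` and
down otherwise, and it is frozen at `0` and at `2 q`.
-/

namespace STG

/-- The bit number `t` of a word. -/
def bit {H : ℕ} (x : Fin H → Bool) (t : ℕ) : Bool := if h : t < H then x ⟨t, h⟩ else false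

/-- One step of the walk on `0, ..., m`, frozen at `0` and `m`. -/
def step (m k : ℕ) (b : Bool) : ℕ := if k = 0 ∨ m ≤ k then k else if b then k + 1 else k - 1

/-- The walk which waits at level `k` until time `s`. -/
def lev (m s k : ℕ) {H : ℕ} (x : Fin H → Bool) : ℕ → ℕ
  | 0 => k
  | t + 1 => if t < s then k else step m (lev m s k x t) (bit x t)

/-- The word which says where two words agree. -/
def xn {H : ℕ} (v β : Fin H → Bool) : Fin H → Bool := fun i => v i == β i

/-- The word `y` before time `t` and the word `z` from time `t` on. -/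
def mix {H : ℕ} (t : ℕ) (y z : Fin H → Bool) : Fin H → Bool :=
  fun i => if (i : ℕ) < t then y i else z i

/-- The opposite word. -/
def neg {H : ℕ} (y : Fin H → Bool) : Fin H → Bool := fun i => !(y i)

/-- Seeds: birth time, initial level, copy number.  At time `0` there are `2 q - k` copies for
each level `0 < k < 2 q`, at the later times there are `q` copies for the level `1`. -/
abbrev Seed (q H : ℕ) : Type :=
  {σ : Fin H × Fin (2 * q) × Fin (2 * q) // 0 < (σ.2.1 : ℕ) ∧
    (((σ.1 : ℕ) = 0 ∧ (σ.2.1 : ℕ) + (σ.2.2 : ℕ) < 2 * q) ∨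
      (0 < (σ.1 : ℕ) ∧ (σ.2.1 : ℕ) = 1 ∧ (σ.2.2 : ℕ) < q))}

/-- The birth time of a seed. -/
def birth {q H : ℕ} (σ : Seed q H) : ℕ := (σ.1.1 : ℕ)

/-- The initial level of a seed. -/
def ini {q H : ℕ} (σ : Seed q H) : ℕ := (σ.1.2.1 : ℕ)

/-- The level of a seed at time `t`. -/
def lv {q H : ℕ} (σ : Seed q H) (x : Fin H → Bool) (t : ℕ) : ℕ := lev (2 * q) (birth σ) (ini σ) x t

/-- Types: side, seed, word. -/
abbrev TT (q H : ℕ) : Type := Bool × Seed q H × (Fin H → Bool)

/-- Units: word, threshold. -/
abbrev UU (q H : ℕ) : Type := (Fin H → Bool) × Fin (2 * q)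

/-- The level of a type at a unit. -/
def tlv {q H : ℕ} (u : UU q H) (a : TT q H) (t : ℕ) : ℕ := lv a.2.1 (xn a.2.2 u.1) t

/-- The cell: the first `i` bits. -/
def cel {q H : ℕ} (i : ℕ) (u : UU q H) : List Bool := (List.ofFn u.1).take i

/-- The types `a` (left) and `b` (right) are in the same component at time `i`. -/
def comp {q H : ℕ} (i : ℕ) (u : UU q H) (a b : TT q H) : Prop :=
  i < H ∧ a.1 = true ∧ b.1 = false ∧ birth a.2.1 ≤ i ∧ birth b.2.1 ≤ i ∧
    0 < tlv u a i ∧ 0 < tlv u b i ∧ tlv u a i + tlv u b i = 2 * q ∧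
    ∀ j : Fin H, i ≤ (j : ℕ) → a.2.2 j ≠ b.2.2 j

/-- The types `a` and `b` are joined at the first time at which they are in one component. -/
def joi {q H : ℕ} (i : ℕ) (u : UU q H) (a b : TT q H) : Prop :=
  comp i u a b ∧ ∀ i' < i, ¬ comp i' u a b

/-- The threshold as seen from a side. -/
def thr {q H : ℕ} (u : UU q H) (s : Bool) : ℕ := if s then (Fin.rev u.2 : ℕ) else (u.2 : ℕ)

/-- The open types. -/
def opn {q H : ℕ} (u : UU q H) (a : TT q H) : Prop := tlv u a H + thr u a.1 < 2 * q

/-- Atoms: seed, word, threshold. -/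
abbrev At (q H : ℕ) : Type := Seed q H × (Fin H → Bool) × Fin (2 * q)

/-- The open atoms with maximal level `k`, attained at time `t` for the last time. -/
def Peak {q H : ℕ} (t k : ℕ) (p : At q H) : Prop :=
  birth p.1 ≤ t ∧ lv p.1 p.2.1 t = k ∧
    (∀ t', birth p.1 ≤ t' → t' ≤ t → lv p.1 p.2.1 t' ≤ k) ∧
    (∀ t', t < t' → t' ≤ H → lv p.1 p.2.1 t' < k) ∧
    lv p.1 p.2.1 H + (p.2.2 : ℕ) < 2 * q

open Classical in
/-- The set of these atoms. -/
noncomputable def PK (q H t k : ℕ) : Finset (At q H) := Finset.univ.filter (Peak t k)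

/-- The embedding of the atoms as pairs (type, unit) of side `s`, with the word `y`: the bits of
the type from time `t` on and the bits of the unit before time `t` are those of `y`. -/
def emb {q H : ℕ} (s : Bool) (t : ℕ) (y : Fin H → Bool) (p : At q H) : TT q H × UU q H :=
  ((s, p.1, mix t (xn p.2.1 y) y), (mix t y (xn p.2.1 y), if s then Fin.rev p.2.2 else p.2.2))

end STG
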