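import Pool.Agent.STG.MAR

/-! FWD: the forward count.

`fw_step`: the map `(σ, x) ↦ (bit x t, (σ, setb t b x))`, `b = true` if the level at time `t` is
`k - 1` and `b = false` if it is `k + 1`, is injective (`setb_setb`: `x` is recovered) from the
disjoint union of `FW t (k - 1) l` and `FW t (k + 1) l` into `Bool × FW (t + 1) k l`; the image
only contains seeds with `birth ≤ t`.  Note that `0 < k - 1` and `k + 1 ≤ l < 2 q` when the second
set is not empty, so that the walk is not frozen.
`fw_step_one`: the same with `FW t 2 l` only, and in addition the `q` seeds with birth `t + 1`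
(level `1`, copy number `< q`) with all `2 ^ H` words, counted twice.
`fw_bound`: induction on `t`: `2 (l + 1) |FW (t + 1) k l| ≥ (l + 1) (|FW t (k - 1) l| +
|FW t (k + 1) l|) ≥ 2 q 2 ^ H (l + 1 - (k - 1) + l + 1 - (k + 1))`. -/

namespace STG

open Finset

open Classical in
/-- Seeds and words with level `k` at time `t` and levels at most `l` until then. -/
noncomputable def FW (q H t k l : ℕ) : Finset (Seed q H × (Fin H → Bool)) :=
  Finset.univ.filter (fun p => birth p.1 ≤ t ∧ lv p.1 p.2 t = k ∧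
    ∀ t', birth p.1 ≤ t' → t' ≤ t → lv p.1 p.2 t' ≤ l)

theorem mem_FW {q H t k l : ℕ} {p : Seed q H × (Fin H → Bool)} :
    p ∈ FW q H t k l ↔ birth p.1 ≤ t ∧ lv p.1 p.2 t = k ∧
      ∀ t', birth p.1 ≤ t' → t' ≤ t → lv p.1 p.2 t' ≤ l := by
  classical
  unfold FW
  rw [mem_filter]
  simp only [mem_univ, true_and]

theorem fw_zero (q H k l : ℕ) (hH : 0 < H) (hk : 0 < k) (hkl : k ≤ l) (hl : l < 2 * q) :
    (2 * q - k) * 2 ^ H ≤ (FW q H 0 k l).card := by
  classical
  have hk2 : k < 2 * q := lt_of_le_of_lt hkl hl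
  let f : Fin (2 * q - k) × (Fin H → Bool) → Seed q H × (Fin H → Bool) := fun p =>
    (⟨(⟨0, hH⟩, ⟨k, hk2⟩, ⟨(p.1 : ℕ), by have := p.1.2; omega⟩),
      ⟨hk, Or.inl ⟨rfl, by have := p.1.2; change k + (p.1 : ℕ) < 2 * q; omega⟩⟩⟩, p.2)
  have hinj : Function.Injective f := by
    intro p p' h
    have h1 := congrArg (fun z : Seed q H × (Fin H → Bool) => ((z.1.1.2.2 : Fin (2 * q)) : ℕ)) h
    have h2 := congrArg (fun z : Seed q H × (Fin H → Bool) => z.2) h
    exact Prod.ext (Fin.ext h1) h2
  have hsub : (univ : Finset (Fin (2 * q - k) × (Fin H → Bool))).image f ⊆ FW q H 0 k l := by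
    intro z hz
    obtain ⟨p, _, rfl⟩ := mem_image.1 hz
    rw [mem_FW]
    refine ⟨le_rfl, rfl, ?_⟩
    intro t' _ ht'
    have : t' = 0 := Nat.le_zero.1 ht'
    subst this
    exact hkl
  have h1 := card_le_card hsub
  rw [card_image_of_injective _ hinj] at h1
  simpa using h1

/-- One step of the injection. -/
theorem fw_inj (q H t k k0 l : ℕ) (b : Bool) (ht : t + 1 < H) (hkl : k ≤ l)
    (hst : k0 ≤ l → step (2 * q) k0 b = k) :
    (FW q H t k0 l).card ≤
      2 * ((FW q H (t + 1) k l).filter (fun p => bit p.2 t = b ∧ birth p.1 ≤ t)).card := by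
  classical
  set A := (FW q H (t + 1) k l).filter (fun p => bit p.2 t = b ∧ birth p.1 ≤ t) with hA
  have htH : t < H := by omega
  let f : Seed q H × (Fin H → Bool) → Bool × (Seed q H × (Fin H → Bool)) := fun p =>
    (bit p.2 t, (p.1, setb t b p.2))
  have hmap : ∀ p ∈ FW q H t k0 l, f p ∈ (univ : Finset Bool) ×ˢ A := by
    intro p hp
    rw [mem_FW] at hp
    obtain ⟨h1, h2, h3⟩ := hp
    have hlev : ∀ t', t' ≤ t → lv p.1 (setb t b p.2) t' = lv p.1 p.2 t' := by
      intro t' ht'
      exact lev_congr _ _ _ _ _ _ (fun i hi => setb_lt t b p.2 i (by omega))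
    have hk0 : k0 ≤ l := h2 ▸ h3 t h1 le_rfl
    have hnew : lv p.1 (setb t b p.2) (t + 1) = k := by
      have h4 : lv p.1 (setb t b p.2) (t + 1) =
          step (2 * q) (lv p.1 (setb t b p.2) t) (bit (setb t b p.2) t) :=
        lev_succ _ _ _ _ _ h1
      rw [h4, hlev t le_rfl, h2, bit_setb t htH]
      exact hst hk0
    rw [mem_product]
    refine ⟨mem_univ _, ?_⟩
    rw [hA, mem_filter, mem_FW]
    refine ⟨⟨?_, hnew, ?_⟩, bit_setb t htH b p.2, h1⟩
    · change birth p.1 ≤ t + 1
      omega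
    · intro t' ht1 ht2
      rcases Nat.lt_or_ge t t' with h5 | h5
      · have h6 : t' = t + 1 := by omega
        subst h6
        exact hnew.le.trans hkl
      · change lv p.1 (setb t b p.2) t' ≤ l
        rw [hlev t' h5]
        exact h3 t' ht1 h5
  have hinj : Set.InjOn f (FW q H t k0 l : Set _) := by
    intro p _ p' _ h
    have h1 : bit p.2 t = bit p'.2 t := congrArg (fun z => z.1) h
    have h2 : p.1 = p'.1 := congrArg (fun z => z.2.1) h
    have h3 : setb t b p.2 = setb t b p'.2 := congrArg (fun z => z.2.2) h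
    have h4 : p.2 = p'.2 := by
      rw [← setb_setb t b p.2, ← setb_setb t b p'.2, h1, h3]
    exact Prod.ext h2 h4
  have h1 := card_le_card_of_injOn f hmap hinj
  rw [card_product] at h1
  simpa using h1

theorem fw_step (q H t k l : ℕ) (ht : t + 1 < H) (hk : 2 ≤ k) (hkl : k ≤ l) (hl : l < 2 * q) :
    (FW q H t (k - 1) l).card + (FW q H t (k + 1) l).card ≤ 2 * (FW q H (t + 1) k l).card := by
  classical
  have h1 := fw_inj q H t k (k - 1) l true ht hkl (fun _ => by
    rw [step_mid _ _ _ (by omega) (by omega)]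
    simp only [if_true]
    omega)
  have h2 := fw_inj q H t k (k + 1) l false ht hkl (fun h => by
    rw [step_mid _ _ _ (by omega) (by omega)]
    simp)
  have h3 : ((FW q H (t + 1) k l).filter (fun p => bit p.2 t = true ∧ birth p.1 ≤ t)).card +
      ((FW q H (t + 1) k l).filter (fun p => bit p.2 t = false ∧ birth p.1 ≤ t)).card ≤
      (FW q H (t + 1) k l).card := by
    rw [← card_union_of_disjoint]
    · apply card_le_card
      intro p hp
      rw [mem_union, mem_filter, mem_filter] at hp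
      rcases hp with hp | hp <;> exact hp.1
    · rw [disjoint_left]
      intro p hp hp'
      rw [mem_filter] at hp hp'
      rw [hp.2.1] at hp'
      exact absurd hp'.2.1 (by simp)
  omega

theorem fw_step_one (q H t l : ℕ) (ht : t + 1 < H) (hkl : 1 ≤ l) (hl : l < 2 * q) :
    2 * q * 2 ^ H + (FW q H t 2 l).card ≤ 2 * (FW q H (t + 1) 1 l).card := by
  classical
  have h2 := fw_inj q H t 1 2 l false ht hkl (fun h => by
    rw [step_mid _ _ _ (by omega) (by omega)]
    simp)
  let f : Fin q × (Fin H → Bool) → Seed q H × (Fin H → Bool) := fun p =>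
    (⟨(⟨t + 1, ht⟩, ⟨1, by omega⟩, ⟨(p.1 : ℕ), by have := p.1.2; omega⟩),
      ⟨Nat.one_pos, Or.inr ⟨Nat.succ_pos t, rfl, p.1.2⟩⟩⟩, p.2)
  have hinj : Function.Injective f := by
    intro p p' h
    have h1 := congrArg (fun z : Seed q H × (Fin H → Bool) => ((z.1.1.2.2 : Fin (2 * q)) : ℕ)) h
    have h2 := congrArg (fun z : Seed q H × (Fin H → Bool) => z.2) h
    exact Prod.ext (Fin.ext h1) h2
  have hdis : Disjoint ((univ : Finset (Fin q × (Fin H → Bool))).image f)
      ((FW q H (t + 1) 1 l).filter (fun p => bit p.2 t = false ∧ birth p.1 ≤ t)) := by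
    rw [disjoint_left]
    intro z hz hz'
    obtain ⟨p, _, rfl⟩ := mem_image.1 hz
    rw [mem_filter] at hz'
    have h3 : t + 1 ≤ t := hz'.2.2
    omega
  have hsub : (univ : Finset (Fin q × (Fin H → Bool))).image f ∪
      ((FW q H (t + 1) 1 l).filter (fun p => bit p.2 t = false ∧ birth p.1 ≤ t)) ⊆
      FW q H (t + 1) 1 l := by
    intro z hz
    rcases mem_union.1 hz with hz | hz
    · obtain ⟨p, _, rfl⟩ := mem_image.1 hz
      rw [mem_FW]
      have hlev : ∀ t', t' ≤ t + 1 → lv (f p).1 (f p).2 t' = 1 := by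
        intro t' ht'
        exact lev_wait (2 * q) (t + 1) 1 (f p).2 t' ht'
      refine ⟨le_rfl, hlev _ le_rfl, ?_⟩
      intro t' _ ht'
      rw [hlev t' ht']
      exact hkl
    · exact (mem_filter.1 hz).1
  have h3 := card_le_card hsub
  rw [card_union_of_disjoint hdis, card_image_of_injective _ hinj] at h3
  have h4 : (univ : Finset (Fin q × (Fin H → Bool))).card = q * 2 ^ H := by simp
  rw [h4] at h3
  have h5 : 2 * q * 2 ^ H = 2 * (q * 2 ^ H) := by ring
  omega

theorem fw_bound (q H t k l : ℕ) (ht : t < H) (hk : 0 < k) (hkl : k ≤ l) (hl : l < 2 * q) :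
    2 * q * 2 ^ H * (l + 1 - k) ≤ (l + 1) * (FW q H t k l).card := by
  induction t generalizing k with
  | zero =>
    have h1 := fw_zero q H k l ht hk hkl hl
    have h2 : 2 * q * (l + 1 - k) ≤ (l + 1) * (2 * q - k) := by
      obtain ⟨a, ha⟩ := Nat.exists_eq_add_of_le hkl
      obtain ⟨c, hc⟩ := Nat.exists_eq_add_of_lt hl
      have e1 : l + 1 - k = a + 1 := by omega
      have e2 : 2 * q - k = a + c + 1 := by omega
      rw [e1, e2, hc, ha]
      nlinarith
    calc 2 * q * 2 ^ H * (l + 1 - k) = 2 * q * (l + 1 - k) * 2 ^ H := by ring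
      _ ≤ (l + 1) * (2 * q - k) * 2 ^ H := Nat.mul_le_mul_right _ h2
      _ = (l + 1) * ((2 * q - k) * 2 ^ H) := by ring
      _ ≤ _ := Nat.mul_le_mul_left _ h1
  | succ t ih =>
    have ihk : ∀ k', 0 < k' → k' ≤ l + 1 →
        2 * q * 2 ^ H * (l + 1 - k') ≤ (l + 1) * (FW q H t k' l).card := by
      intro k' h0 h1
      rcases Nat.lt_or_ge l k' with h2 | h2
      · have : l + 1 - k' = 0 := by omega
        rw [this, mul_zero]
        exact Nat.zero_le _
      · exact ih k' (by omega) h0 h2
    set Z := 2 * q * 2 ^ H with hZ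
    rcases Nat.lt_or_ge k 2 with h1 | h1
    · have hk1 : k = 1 := by omega
      subst hk1
      have h2 := fw_step_one q H t l ht hkl hl
      have h3 := ihk 2 (by omega) (by omega)
      rw [← hZ] at h2
      obtain ⟨a, ha⟩ := Nat.exists_eq_add_of_le hkl
      have e1 : l + 1 - 1 = 1 + a := by omega
      have e2 : l + 1 - 2 = a := by omega
      rw [e2] at h3
      rw [e1]
      rw [ha] at h3 h2 ⊢
      nlinarith
    · have h2 := fw_step q H t k l ht h1 hkl hl
      have h3 := ihk (k - 1) (by omega) (by omega)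
      have h4 := ihk (k + 1) (by omega) (by omega)
      obtain ⟨a, ha⟩ := Nat.exists_eq_add_of_le hkl
      have e1 : l + 1 - k = a + 1 := by omega
      have e2 : l + 1 - (k - 1) = a + 2 := by omega
      have e3 : l + 1 - (k + 1) = a := by omega
      rw [e2] at h3
      rw [e3] at h4
      rw [e1]
      nlinarith

end STG
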