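import Pool.Agent.STG.WLK

/-! JOI: the axioms of a certificate for `cel`, `joi`, `opn`. -/

namespace STG

theorem cel_zero {q H : ℕ} (u u' : UU q H) : cel 0 u = cel 0 u' := by
  rw [cel_iff]
  intro j hj
  omega

theorem cel_mono {q H : ℕ} (i : ℕ) (u u' : UU q H) (h : cel (i + 1) u = cel (i + 1) u') :
    cel i u = cel i u' := by
  rw [cel_iff] at h ⊢
  intro j hj
  exact h j (by omega)

/-- By `cel_iff` and `lev_congr`: the component at time `i` only depends on the cell. -/
theorem comp_cell {q H : ℕ} (i : ℕ) (u u' : UU q H) (a b : TT q H) (h : cel i u = cel i u')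
    (hc : comp i u a b) : comp i u' a b := by
  rw [cel_iff] at h
  have key : ∀ c : TT q H, tlv u' c i = tlv u c i := by
    intro c
    unfold tlv lv
    apply lev_congr
    intro j hj
    unfold xn
    rw [h j hj]
  obtain ⟨h1, h2, h3, h4, h5, h6, h7, h8, h9⟩ := hc
  refine ⟨h1, h2, h3, h4, h5, ?_, ?_, ?_, h9⟩
  · rw [key]; exact h6
  · rw [key]; exact h7
  · rw [key, key]; exact h8

theorem cel_mono_le {q H : ℕ} (i j : ℕ) (hij : j ≤ i) (u u' : UU q H) (h : cel i u = cel i u') :
    cel j u = cel j u' := by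
  rw [cel_iff] at h ⊢
  intro l hl
  exact h l (by omega)

theorem joi_cell {q H : ℕ} (i : ℕ) (u u' : UU q H) (a b : TT q H) (h : cel i u = cel i u')
    (hc : joi i u a b) : joi i u' a b := by
  refine ⟨comp_cell i u u' a b h hc.1, fun i' hi' hcon => ?_⟩
  exact hc.2 i' hi' (comp_cell i' u' u a b (cel_mono_le i i' hi'.le u u' h).symm hcon)

theorem joi_uniq {q H : ℕ} (i i' : ℕ) (u : UU q H) (a b : TT q H) (h : joi i u a b)
    (h' : joi i' u a b) : i = i' := by
  rcases lt_trichotomy i i' with hlt | heq | hgt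
  · exact absurd h.1 (h'.2 i hlt)
  · exact heq
  · exact absurd h'.1 (h.2 i' hgt)

/-- By `lev_dual` the levels are complementary at time `H`. -/
theorem joi_indep {q H : ℕ} (i : ℕ) (u : UU q H) (a b : TT q H) (h : joi i u a b) :
    ¬ (opn u a ∧ opn u b) := by
  rintro ⟨ha, hb⟩
  obtain ⟨h1, h2, h3, h4, h5, h6, h7, h8, h9⟩ := h.1
  have hsum : tlv u a H + tlv u b H = 2 * q := by
    unfold tlv lv at h8 ⊢
    refine lev_dual (2 * q) _ _ _ _ _ _ i h4 h5 h8 ?_ H h1.le le_rfl
    intro j hj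
    have := h9 j hj
    unfold xn
    revert this
    cases a.2.2 j <;> cases b.2.2 j <;> cases u.1 j <;> simp
  unfold opn thr at ha hb
  rw [h2] at ha
  rw [h3] at hb
  have hr : (Fin.rev u.2 : ℕ) = 2 * q - ((u.2 : ℕ) + 1) := Fin.val_rev u.2
  simp only [if_true, Bool.false_eq_true, if_false] at ha hb
  rw [hr] at ha
  have := u.2.2
  omega

/-- `Nat.find`. -/
theorem joi_of_comp {q H : ℕ} (t : ℕ) (u : UU q H) (a b : TT q H) (h : comp t u a b) :
    ∃ i ≤ t, joi i u a b := by
  classical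
  have hex : ∃ i, comp i u a b := ⟨t, h⟩
  exact ⟨Nat.find hex, Nat.find_min' hex h, Nat.find_spec hex,
    fun i' hi' => Nat.find_min hex hi'⟩

end STG
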