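import Pool.Agent.STG.WLK

/-! MAR: the level is a martingale.

`lev_sum`: induction on `t`. If `t < s`, `lev_wait`. If `s ≤ t`: `lev (t + 1) = step m (lev t)
(bit x t)`; the flip of the bit `t` is an involution of `Fin H → Bool` which does not change
`lev t` (`lev_congr`), and `step m k true + step m k false = 2 k`, hence
`2 ∑ lev (t+1) = ∑ (step .. (bit x t) + step .. (!bit x t)) = 2 ∑ lev t`. -/

namespace STG

/-- Change the bit number `t`. -/
def setb {H : ℕ} (t : ℕ) (b : Bool) (x : Fin H → Bool) : Fin H → Bool :=
  fun i => if (i : ℕ) = t then b else x i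

theorem bit_setb {H : ℕ} (t : ℕ) (ht : t < H) (b : Bool) (x : Fin H → Bool) :
    bit (setb t b x) t = b := by
  unfold bit setb
  rw [dif_pos ht]
  simp

theorem setb_lt {H : ℕ} (t : ℕ) (b : Bool) (x : Fin H → Bool) (i : Fin H) (hi : (i : ℕ) < t) :
    setb t b x i = x i := by
  unfold setb
  rw [if_neg (by omega)]

theorem setb_setb {H : ℕ} (t : ℕ) (b : Bool) (x : Fin H → Bool) :
    setb t (bit x t) (setb t b x) = x := by
  funext i
  unfold setb
  by_cases h : (i : ℕ) = t
  · rw [if_pos h]
    unfold bit
    have ht : t < H := h ▸ i.isLt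
    rw [dif_pos ht]
    congr 1
    exact Fin.ext h.symm
  · rw [if_neg h, if_neg h]

theorem step_add (m k : ℕ) (hk : k ≤ m) (b : Bool) : step m k b + step m k (!b) = 2 * k := by
  unfold step
  cases b <;> simp <;> split_ifs <;> omega

theorem lev_sum (m s k : ℕ) (hk : k ≤ m) (H t : ℕ) (ht : t ≤ H) :
    ∑ x : Fin H → Bool, lev m s k x t = 2 ^ H * k := by
  induction t with
  | zero =>
    simp [lev]
  | succ t ih =>
    by_cases hs : t < s
    · have h1 : ∀ x : Fin H → Bool, lev m s k x (t + 1) = k := fun x => lev_wait m s k x (t + 1) hs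
      simp [h1]
    · push Not at hs
      have hinv : Function.Involutive (fun x : Fin H → Bool => setb t (!bit x t) x) := by
        intro x
        show setb t (!bit (setb t (!bit x t) x) t) (setb t (!bit x t) x) = x
        rw [bit_setb t (by omega), Bool.not_not, setb_setb]
      have e1 : ∑ x : Fin H → Bool, lev m s k x (t + 1) =
          ∑ x : Fin H → Bool, lev m s k (setb t (!bit x t) x) (t + 1) :=
        (Equiv.sum_comp hinv.toPerm (fun x : Fin H → Bool => lev m s k x (t + 1))).symm
      have e2 : ∀ x : Fin H → Bool, lev m s k x (t + 1) + lev m s k (setb t (!bit x t) x) (t + 1) =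
          2 * lev m s k x t := by
        intro x
        have h1 : lev m s k (setb t (!bit x t) x) t = lev m s k x t :=
          lev_congr m s k _ _ t (fun i hi => setb_lt t _ x i hi)
        rw [lev_succ m s k x t hs, lev_succ m s k _ t hs, h1, bit_setb t (by omega)]
        exact step_add m _ (lev_le m s k x t hk) _
      have e3 : 2 * ∑ x : Fin H → Bool, lev m s k x (t + 1) =
          2 * ∑ x : Fin H → Bool, lev m s k x t := by
        calc 2 * ∑ x : Fin H → Bool, lev m s k x (t + 1)
            = ∑ x : Fin H → Bool, lev m s k x (t + 1) +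
              ∑ x : Fin H → Bool, lev m s k (setb t (!bit x t) x) (t + 1) := by
              rw [← e1, two_mul]
          _ = ∑ x : Fin H → Bool, (lev m s k x (t + 1) +
              lev m s k (setb t (!bit x t) x) (t + 1)) := by rw [Finset.sum_add_distrib]
          _ = 2 * ∑ x : Fin H → Bool, lev m s k x t := by
              rw [Finset.mul_sum]
              exact Finset.sum_congr rfl fun x _ => e2 x
      have e4 := ih (by omega)
      omega

end STG
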