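import Pool.Agent.STG.Defs

/-! WLK: first properties of the walk. All proofs are short inductions on `t`. -/

namespace STG

theorem bit_lt {H : ℕ} (x : Fin H → Bool) (j : Fin H) : bit x (j : ℕ) = x j := by
  unfold bit
  rw [dif_pos j.isLt]

/-- The level at time `t` only depends on the bits before `t`. -/
theorem lev_congr (m s k : ℕ) {H : ℕ} (x x' : Fin H → Bool) (t : ℕ)
    (h : ∀ i : Fin H, (i : ℕ) < t → x i = x' i) : lev m s k x t = lev m s k x' t := by
  induction t with
  | zero => rfl
  | succ t ih =>
    have h1 : bit x t = bit x' t := by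
      unfold bit
      by_cases ht : t < H
      · rw [dif_pos ht, dif_pos ht]
        exact h ⟨t, ht⟩ (Nat.lt_succ_self t)
      · rw [dif_neg ht, dif_neg ht]
    simp only [lev]
    rw [ih (fun i hi => h i (Nat.lt_succ_of_lt hi)), h1]

theorem lev_wait (m s k : ℕ) {H : ℕ} (x : Fin H → Bool) (t : ℕ) (h : t ≤ s) :
    lev m s k x t = k := by
  cases t with
  | zero => rfl
  | succ t =>
    simp only [lev]
    rw [if_pos (by omega)]

theorem lev_succ (m s k : ℕ) {H : ℕ} (x : Fin H → Bool) (t : ℕ) (h : s ≤ t) :
    lev m s k x (t + 1) = step m (lev m s k x t) (bit x t) := by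
  simp only [lev]
  rw [if_neg (by omega)]

private theorem wlk_step_le (m k : ℕ) (b : Bool) (h : k ≤ m) : step m k b ≤ m := by
  unfold step
  split_ifs <;> omega

theorem lev_le (m s k : ℕ) {H : ℕ} (x : Fin H → Bool) (t : ℕ) (h : k ≤ m) :
    lev m s k x t ≤ m := by
  induction t with
  | zero => exact h
  | succ t ih =>
    simp only [lev]
    split_ifs
    · exact h
    · exact wlk_step_le m _ _ ih

theorem step_mid (m k : ℕ) (b : Bool) (h0 : 0 < k) (h1 : k < m) :
    step m k b = if b then k + 1 else k - 1 := by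
  unfold step
  rw [if_neg (by omega)]

theorem step_zero (m : ℕ) (b : Bool) : step m 0 b = 0 := by
  unfold step
  rw [if_pos (Or.inl rfl)]

/-- Complementary levels stay complementary if the later bits are opposite. -/
theorem lev_dual (m s k s' k' : ℕ) {H : ℕ} (x x' : Fin H → Bool) (i : ℕ) (hs : s ≤ i)
    (hs' : s' ≤ i) (h : lev m s k x i + lev m s' k' x' i = m)
    (hx : ∀ j : Fin H, i ≤ (j : ℕ) → x j ≠ x' j) (t : ℕ) (hit : i ≤ t) (htH : t ≤ H) :
    lev m s k x t + lev m s' k' x' t = m := by
  induction t, hit using Nat.le_induction with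
  | base => exact h
  | succ t hit ih =>
    have ht : t < H := by omega
    have ih' := ih (by omega)
    rw [lev_succ m s k x t (by omega), lev_succ m s' k' x' t (by omega)]
    have hb : bit x t ≠ bit x' t := by
      have e1 : bit x t = x ⟨t, ht⟩ := bit_lt x ⟨t, ht⟩
      have e2 : bit x' t = x' ⟨t, ht⟩ := bit_lt x' ⟨t, ht⟩
      rw [e1, e2]
      exact hx ⟨t, ht⟩ hit
    unfold step
    cases h1 : bit x t <;> cases h2 : bit x' t
    · exact absurd (h1.trans h2.symm) hb
    · simp only [Bool.false_eq_true, if_false, if_true]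
      split_ifs <;> omega
    · simp only [Bool.false_eq_true, if_false, if_true]
      split_ifs <;> omega
    · exact absurd (h1.trans h2.symm) hb

theorem cel_iff {q H : ℕ} (i : ℕ) (u u' : UU q H) :
    cel i u = cel i u' ↔ ∀ j : Fin H, (j : ℕ) < i → u.1 j = u'.1 j := by
  unfold cel
  constructor
  · intro h j hj
    have h1 : ((List.ofFn u.1).take i)[(j : ℕ)]? = ((List.ofFn u'.1).take i)[(j : ℕ)]? := by
      rw [h]
    rw [List.getElem?_take_of_lt hj, List.getElem?_take_of_lt hj, List.getElem?_ofFn,
      List.getElem?_ofFn, dif_pos j.isLt, dif_pos j.isLt] at h1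
    exact Option.some.inj h1
  · intro h
    apply List.ext_getElem?
    intro n
    by_cases hn : n < i
    · rw [List.getElem?_take_of_lt hn, List.getElem?_take_of_lt hn, List.getElem?_ofFn,
        List.getElem?_ofFn]
      by_cases hH : n < H
      · rw [dif_pos hH, dif_pos hH, h ⟨n, hH⟩ hn]
      · rw [dif_neg hH, dif_neg hH]
    · rw [List.getElem?_take_eq_none (by omega), List.getElem?_take_eq_none (by omega)]

end STG
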